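import Pool.Agent.Helper94.TR.Defs
import Pool.Agent.Helper2.PG.Bound

/-!
Project TR (MP_b8862a_ag): basic facts. Two lengths, irreducibility in the form used, signs.
-/

set_option linter.unusedSectionVars false
set_option linter.unusedVariables false

namespace TR

open PF PG

variable {E : Type*} [NormedAddCommGroup E] [InnerProductSpace ℝ E] {Φ X : Finset E} {ℓ : E →ₗ[ℝ] ℝ}

section rs

variable (h : RS Φ)
include h

theorem inn {a : E} (ha : a ∈ Φ) (x : E) : (inner ℝ x a : ℝ) = co a x * inner ℝ a a / 2 := inner_eq (h.ne_zero a ha) x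

theorem inn_eq_zero {a : E} (ha : a ∈ Φ) (x : E) : (inner ℝ x a : ℝ) = 0 ↔ co a x = 0 := by
  have h1 := inn h ha x
  have h2 := h.inner_pos ha
  constructor
  · intro h3
    rw [h3] at h1
    have : co a x * inner ℝ a a = 0 := by linarith
    rcases mul_eq_zero.1 this with h4 | h4
    · exact h4
    · exact absurd h4 h2.ne'
  · intro h3
    rw [h1, h3]
    ring

theorem inn_pos {a : E} (ha : a ∈ Φ) (x : E) : (0 : ℝ) < inner ℝ x a ↔ 0 < co a x := by
  have h1 := inn h ha x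
  have h2 := h.inner_pos ha
  constructor
  · intro h3
    by_contra h4
    push Not at h4
    nlinarith
  · intro h3
    rw [h1]
    positivity

theorem inn_neg {a : E} (ha : a ∈ Φ) (x : E) : (inner ℝ x a : ℝ) < 0 ↔ co a x < 0 := by
  have h1 := inn_pos h ha (-x)
  rw [inner_neg_left, co_neg_right] at h1
  constructor
  · intro h3
    have := h1.1 (by linarith)
    linarith
  · intro h3
    have := h1.2 (by linarith)
    linarith

theorem inn_nonneg {a : E} (ha : a ∈ Φ) (x : E) : (0 : ℝ) ≤ inner ℝ x a ↔ 0 ≤ co a x := by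
  have h1 := inn_neg h ha x
  constructor
  · intro h3
    by_contra h4
    push Not at h4
    have := h1.2 h4
    linarith
  · intro h3
    by_contra h4
    push Not at h4
    have := h1.1 h4
    linarith

/-- a stable family of roots: every root is not orthogonal to some member -/
theorem near {A : E → Prop} (hA : ∀ d ∈ Φ, A d → ∀ c ∈ Φ, A (d - co c d • c)) {d0 : E} (hd0 : d0 ∈ Φ) (hA0 : A d0) :
    ∀ c ∈ Φ, ∃ d ∈ Φ, A d ∧ (inner ℝ c d : ℝ) ≠ 0 := by
  classical
  obtain ⟨S, hS⟩ : ∃ S : Finset E, ∀ c, c ∈ S ↔ c ∈ Φ ∧ ∃ d ∈ Φ, A d ∧ (inner ℝ c d : ℝ) ≠ 0 :=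
    ⟨Φ.filter fun c => ∃ d ∈ Φ, A d ∧ (inner ℝ c d : ℝ) ≠ 0, fun c => by simp⟩
  have h1 : S = Φ := by
    refine h.irr S (fun c hc => ((hS c).1 hc).1) ⟨d0, (hS d0).2 ⟨hd0, d0, hd0, hA0, (h.inner_pos hd0).ne'⟩⟩ ?_
    intro c hc e he heS
    by_contra hce
    obtain ⟨hcΦ, d, hd, hAd, hcd⟩ := (hS c).1 hc
    apply heS
    by_cases hed : (inner ℝ e d : ℝ) = 0
    · refine (hS e).2 ⟨he, d - co c d • c, h.refl c hcΦ d hd, hA d hd hAd c hcΦ, ?_⟩
      rw [inner_sub_right, inner_smul_right, hed, zero_sub]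
      have h2 : co c d ≠ 0 := by
        intro h3
        apply hcd
        rw [real_inner_comm]
        exact (inn_eq_zero h hcΦ d).2 h3
      rw [real_inner_comm] at hce
      simp [h2, hce]
    · exact (hS e).2 ⟨he, d, hd, hAd, hed⟩
  intro c hc
  rw [← h1] at hc
  exact ((hS c).1 hc).2

/-- (IR) Not every root which is not orthogonal to `t` is orthogonal to `r`. -/
theorem not_all_orth {t r : E} (ht : t ∈ Φ) (hr : r ∈ Φ) : ∃ g ∈ Φ, (inner ℝ g t : ℝ) ≠ 0 ∧ (inner ℝ g r : ℝ) ≠ 0 := by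
  classical
  by_contra hcon
  push Not at hcon
  obtain ⟨S, hS⟩ : ∃ S : Finset E, ∀ c, c ∈ S ↔ c ∈ Φ ∧ ∃ g ∈ Φ, (inner ℝ g t : ℝ) ≠ 0 ∧ (inner ℝ c g : ℝ) ≠ 0 :=
    ⟨Φ.filter fun c => ∃ g ∈ Φ, (inner ℝ g t : ℝ) ≠ 0 ∧ (inner ℝ c g : ℝ) ≠ 0, fun c => by simp⟩
  have hself : ∀ {c : E}, c ∈ Φ → (inner ℝ c t : ℝ) ≠ 0 → c ∈ S := fun {c} hc hct =>
    (hS c).2 ⟨hc, c, hc, hct, (h.inner_pos hc).ne'⟩
  have h1 : S = Φ := by
    refine h.irr S (fun c hc => ((hS c).1 hc).1) ⟨t, hself ht (h.inner_pos ht).ne'⟩ ?_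
    intro c hc e he heS
    by_contra hce
    obtain ⟨hcΦ, g, hg, hgt, hcg⟩ := (hS c).1 hc
    apply heS
    by_cases hct : (inner ℝ c t : ℝ) = 0
    · by_cases heg : (inner ℝ e g : ℝ) = 0
      · refine (hS e).2 ⟨he, g - co c g • c, h.refl c hcΦ g hg, ?_, ?_⟩
        · rw [inner_sub_left, inner_smul_left, hct]
          simpa using hgt
        · rw [inner_sub_right, inner_smul_right, heg, zero_sub]
          have h2 : co c g ≠ 0 := by
            intro h3
            apply hcg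
            rw [real_inner_comm]
            exact (inn_eq_zero h hcΦ g).2 h3
          rw [real_inner_comm] at hce
          simp [h2, hce]
      · exact (hS e).2 ⟨he, g, hg, hgt, heg⟩
    · exact (hS e).2 ⟨he, c, hcΦ, hct, by rw [real_inner_comm]; exact hce⟩
  have h2 : ∀ c ∈ Φ, (inner ℝ c r : ℝ) = 0 := by
    intro c hc
    by_cases hct : (inner ℝ c t : ℝ) = 0
    · rw [← h1] at hc
      obtain ⟨hcΦ, g, hg, hgt, hcg⟩ := (hS c).1 hc
      have h3 : (inner ℝ (g - co c g • c) t : ℝ) ≠ 0 := by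
        rw [inner_sub_left, inner_smul_left, hct]
        simpa using hgt
      have h4 := hcon _ (h.refl c hcΦ g hg) h3
      rw [inner_sub_left, inner_smul_left, hcon g hg hgt, zero_sub] at h4
      have h5 : co c g ≠ 0 := by
        intro h6
        apply hcg
        rw [real_inner_comm]
        exact (inn_eq_zero h hcΦ g).2 h6
      simp at h4
      rcases h4 with h6 | h6
      · exact absurd h6 h5
      · exact h6
    · exact hcon c hc hct
  exact (h.inner_pos hr).ne' (h2 r hr)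

end rs

/-- The product of the pairings. -/
theorem co_mul_co {a b : E} (ha : a ≠ 0) (hb : b ≠ 0) :
    co a b * inner ℝ a a = (co b a * inner ℝ b b : ℝ) := by
  rw [co_mul ha, co_mul hb, real_inner_comm]

section cf

variable (C : Cf Φ X ℓ)
include C

theorem Cf.pos {a : E} (ha : a ∈ Φ) : (0 : ℝ) < inner ℝ a a := C.rs.inner_pos ha

theorem Cf.neg {a : E} (ha : a ∈ Φ) : -a ∈ Φ := C.rs.neg_mem ha

theorem Cf.refl {a b : E} (ha : a ∈ Φ) (hb : b ∈ Φ) : b - co a b • a ∈ Φ := C.rs.refl a ha b hb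

theorem Cf.reflX {a x : E} (ha : a ∈ Φ) (hx : x ∈ X) : x - co a x • a ∈ X := sat_refl C.rs C.sat ha hx

theorem Cf.two_le {a b : E} (ha : a ∈ Φ) (hb : b ∈ Φ) : -2 ≤ co a b := by
  have h1 := C.le2 (-a) (C.neg ha) b hb
  rw [PF.co_neg_left] at h1
  linarith

/-- The pairing of two roots is one of five numbers. -/
theorem Cf.five {a b : E} (ha : a ∈ Φ) (hb : b ∈ Φ) :
    co a b = -2 ∨ co a b = -1 ∨ co a b = 0 ∨ co a b = 1 ∨ co a b = 2 := by
  obtain ⟨k, hk⟩ := C.rs.int a ha b hb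
  have h1 := C.le2 a ha b hb
  have h2 := C.two_le ha hb
  rw [hk] at h1 h2 ⊢
  have h3 : k ≤ 2 := by exact_mod_cast h1
  have h4 : -2 ≤ k := by exact_mod_cast h2
  have h5 : k = -2 ∨ k = -1 ∨ k = 0 ∨ k = 1 ∨ k = 2 := by omega
  rcases h5 with rfl | rfl | rfl | rfl | rfl
  · left; norm_num
  · right; left; norm_num
  · right; right; left; norm_num
  · right; right; right; left; norm_num
  · right; right; right; right; norm_num

/-- Pairing two with a root which is not longer: equality. -/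
theorem Cf.eq_of_two {a b : E} (ha : a ∈ Φ) (hb : b ∈ Φ) (h : co a b = 2) (hn : inner ℝ b b ≤ (inner ℝ a a : ℝ)) :
    b = a := by
  have h1 := co_mul_co (C.rs.ne_zero a ha) (C.rs.ne_zero b hb)
  have h2 := C.pos ha
  have h3 := C.pos hb
  rw [h] at h1
  have h4 : 2 ≤ co b a := by
    by_contra hc
    push Not at hc
    nlinarith
  have h5 : co b a = 2 := le_antisymm (C.le2 b hb a ha) h4
  rw [h5] at h1
  have h6 : (inner ℝ a a : ℝ) = inner ℝ b b := by linarith
  have h7 : (inner ℝ b a : ℝ) = inner ℝ a a := by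
    have := inn C.rs ha b
    rw [h] at this
    linarith
  have h8 : (inner ℝ (b - a) (b - a) : ℝ) = 0 := by
    rw [inner_sub_left, inner_sub_right, inner_sub_right, real_inner_comm b a, h7]
    linarith
  have h9 := inner_self_eq_zero.1 h8
  exact sub_eq_zero.1 h9

/-- The ratio of the lengths. -/
theorem Cf.ratio {a b : E} (ha : a ∈ Φ) (hb : b ∈ Φ) (h : (inner ℝ a b : ℝ) ≠ 0) :
    (inner ℝ b b : ℝ) = inner ℝ a a ∨ (inner ℝ b b : ℝ) = 2 * inner ℝ a a ∨ (inner ℝ b b : ℝ) = inner ℝ a a / 2 := by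
  have h1 := co_mul_co (C.rs.ne_zero a ha) (C.rs.ne_zero b hb)
  have h2 := C.pos ha
  have h3 := C.pos hb
  have h4 : co b a ≠ 0 := fun h5 => h ((inn_eq_zero C.rs hb a).2 h5)
  have h5 : co a b ≠ 0 := fun h5 => h (by
    rw [real_inner_comm]
    exact (inn_eq_zero C.rs ha b).2 h5)
  rcases C.five ha hb with e | e | e | e | e
  · rcases C.five hb ha with f | f | f | f | f
    · left; rw [e, f] at h1; linarith
    · right; left; rw [e, f] at h1; linarith
    · exact absurd f h4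
    · rw [e, f] at h1; exfalso; linarith
    · rw [e, f] at h1; exfalso; linarith
  · rcases C.five hb ha with f | f | f | f | f
    · right; right; rw [e, f] at h1; linarith
    · left; rw [e, f] at h1; linarith
    · exact absurd f h4
    · rw [e, f] at h1; exfalso; linarith
    · rw [e, f] at h1; exfalso; linarith
  · exact absurd e h5
  · rcases C.five hb ha with f | f | f | f | f
    · rw [e, f] at h1; exfalso; linarith
    · rw [e, f] at h1; exfalso; linarith
    · exact absurd f h4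
    · left; rw [e, f] at h1; linarith
    · right; right; rw [e, f] at h1; linarith
  · rcases C.five hb ha with f | f | f | f | f
    · rw [e, f] at h1; exfalso; linarith
    · rw [e, f] at h1; exfalso; linarith
    · exact absurd f h4
    · right; left; rw [e, f] at h1; linarith
    · left; rw [e, f] at h1; linarith

/-- The maximal norm. -/
theorem Cf.exists_max : ∃ g ∈ Φ, ∀ a ∈ Φ, (inner ℝ a a : ℝ) ≤ inner ℝ g g := by
  obtain ⟨g, hg, h⟩ := Φ.exists_max_image (fun a => (inner ℝ a a : ℝ)) C.rs.nonempty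
  exact ⟨g, hg, h⟩

/-- Every root is not orthogonal to some root of the same length as `g`. -/
theorem Cf.near_len {g : E} (hg : g ∈ Φ) {c : E} (hc : c ∈ Φ) :
    ∃ d ∈ Φ, (inner ℝ d d : ℝ) = inner ℝ g g ∧ (inner ℝ c d : ℝ) ≠ 0 := by
  refine near C.rs (A := fun d => (inner ℝ d d : ℝ) = inner ℝ g g) ?_ hg rfl c hc
  intro d hd hd' c hc
  rw [C.rs.inner_refl hc]
  exact hd'

/-- (TL) There are at most two lengths. -/
theorem Cf.two_len {g : E} (hg : g ∈ Φ) (hmax : ∀ a ∈ Φ, (inner ℝ a a : ℝ) ≤ inner ℝ g g) {a : E} (ha : a ∈ Φ) :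
    (inner ℝ a a : ℝ) = inner ℝ g g ∨ (inner ℝ a a : ℝ) = inner ℝ g g / 2 := by
  obtain ⟨d, hd, hdg, had⟩ := C.near_len hg ha
  have h1 := hmax a ha
  have h2 := C.pos ha
  rcases C.ratio ha hd had with h | h | h
  · left; linarith
  · right; linarith
  · exfalso; linarith

/-- (IR0) A root of level zero is not orthogonal to some root of another level. -/
theorem Cf.exists_lev {a : E} (ha : a ∈ Φ) (h0 : ℓ a = 0) : ∃ b ∈ Φ, ℓ b ≠ 0 ∧ (inner ℝ a b : ℝ) ≠ 0 := by
  classical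
  by_contra hcon
  push Not at hcon
  obtain ⟨S, hS⟩ : ∃ S : Finset E, ∀ c, c ∈ S ↔ c ∈ Φ ∧ ℓ c = 0 ∧ ∀ b ∈ Φ, ℓ b ≠ 0 → (inner ℝ c b : ℝ) = 0 :=
    ⟨Φ.filter fun c => ℓ c = 0 ∧ ∀ b ∈ Φ, ℓ b ≠ 0 → (inner ℝ c b : ℝ) = 0, fun c => by simp⟩
  have h1 : S = Φ := by
    refine C.rs.irr S (fun c hc => ((hS c).1 hc).1) ⟨a, (hS a).2 ⟨ha, h0, hcon⟩⟩ ?_
    intro c hc d hd hdS
    obtain ⟨hcΦ, hc0, hcb⟩ := (hS c).1 hc
    by_cases hd0 : ℓ d = 0
    · have h2 : ∃ b ∈ Φ, ℓ b ≠ 0 ∧ (inner ℝ d b : ℝ) ≠ 0 := by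
        by_contra h3
        push Not at h3
        exact hdS ((hS d).2 ⟨hd, hd0, h3⟩)
      obtain ⟨b, hb, hb0, hdb⟩ := h2
      have h3 := hcb _ (C.refl hd hb) (by
        rw [map_sub, map_smul, hd0, smul_zero, sub_zero]
        exact hb0)
      rw [inner_sub_right, inner_smul_right, hcb b hb hb0, zero_sub] at h3
      have h5 : co d b ≠ 0 := by
        intro h6
        apply hdb
        rw [real_inner_comm]
        exact (inn_eq_zero C.rs hd b).2 h6
      simp at h3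
      rcases h3 with h6 | h6
      · exact absurd h6 h5
      · exact h6
    · exact hcb d hd hd0
  have h2 : ∀ c ∈ Φ, ℓ c = 0 := fun c hc => by
    rw [← h1] at hc
    exact ((hS c).1 hc).2.1
  obtain ⟨x, hx⟩ := C.sat.nonempty
  have h3 := C.sat.coset x hx (-x) (C.sat.neg x hx)
  have h4 : ∀ z ∈ AddSubgroup.closure (Φ : Set E), ℓ z = 0 := by
    intro z hz
    induction hz using AddSubgroup.closure_induction with
    | mem z hz => exact h2 z hz
    | zero => exact map_zero _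
    | add z w _ _ h5 h6 => rw [map_add, h5, h6, add_zero]
    | neg z _ h5 => rw [map_neg, h5, neg_zero]
  have h5 := h4 _ h3
  rw [map_sub, map_neg] at h5
  rcases C.lev x hx with h6 | h6 | h6 | h6 <;> rw [h6] at h5 <;> norm_num at h5

/-- A weight on which the root is positive. -/
theorem Cf.act_pos {a : E} (ha : a ∈ Φ) : ∃ x ∈ X, 1 ≤ co a x := by
  obtain ⟨x, hx, hne⟩ := C.act a ha
  obtain ⟨k, hk⟩ := C.sat.int a ha x hx
  have h1 : k ≠ 0 := by
    intro h2
    apply hne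
    rw [hk, h2]
    norm_num
  rcases lt_or_gt_of_ne h1 with h2 | h2
  · refine ⟨-x, C.sat.neg x hx, ?_⟩
    rw [PF.co_neg_right, hk]
    have : (k : ℝ) ≤ -1 := by exact_mod_cast Int.le_sub_one_of_lt h2
    linarith
  · refine ⟨x, hx, ?_⟩
    rw [hk]
    exact_mod_cast h2

theorem Cf.sub_mem {a x : E} (ha : a ∈ Φ) (hx : x ∈ X) (h : 0 < co a x) : x - a ∈ X := by
  obtain ⟨k, hk⟩ := C.sat.int a ha x hx
  have h1 : 1 ≤ k := by
    rw [hk] at h
    have : 0 < k := by exact_mod_cast h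
    omega
  have h2 := C.sat.str a ha x hx 1 (by rw [hk]; exact_mod_cast h1)
  simpa using h2

theorem Cf.add_mem {a x : E} (ha : a ∈ Φ) (hx : x ∈ X) (h : co a x < 0) : x + a ∈ X := by
  have h1 := C.sub_mem (C.neg ha) hx (by rw [PF.co_neg_left]; linarith)
  simpa using h1

theorem Cf.lev_le {x : E} (hx : x ∈ X) : ℓ x ≤ 3 / 2 := by
  rcases C.lev x hx with h | h | h | h <;> rw [h] <;> norm_num

theorem Cf.le_lev {x : E} (hx : x ∈ X) : -(3 / 2) ≤ ℓ x := by
  rcases C.lev x hx with h | h | h | h <;> rw [h] <;> norm_num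

/-- The levels of the roots are at most three. -/
theorem Cf.lev_root {a : E} (ha : a ∈ Φ) : ℓ a ≤ 3 := by
  obtain ⟨x, hx, h1⟩ := C.act_pos ha
  have h2 := C.sub_mem ha hx (by linarith)
  have h3 := C.le_lev h2
  have h4 := C.lev_le hx
  rw [map_sub] at h3
  linarith

/-- The levels of the roots. -/
theorem Cf.levels {a : E} (ha : a ∈ Φ) : ℓ a = -3 ∨ ℓ a = -2 ∨ ℓ a = -1 ∨ ℓ a = 0 ∨ ℓ a = 1 ∨ ℓ a = 2 ∨ ℓ a = 3 := by
  obtain ⟨k, hk⟩ := C.int a ha
  have h1 := C.lev_root ha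
  have h2 := C.lev_root (C.neg ha)
  rw [map_neg] at h2
  rw [hk] at h1 h2 ⊢
  have h3 : k ≤ 3 := by exact_mod_cast h1
  have h4 : -3 ≤ k := by
    have : -(3 : ℝ) ≤ k := by linarith
    exact_mod_cast this
  have h5 : k = -3 ∨ k = -2 ∨ k = -1 ∨ k = 0 ∨ k = 1 ∨ k = 2 ∨ k = 3 := by omega
  rcases h5 with rfl | rfl | rfl | rfl | rfl | rfl | rfl <;> norm_num

/-- (F1) Signs. -/
theorem Cf.nonneg {a x : E} (ha : a ∈ Φ) (hx : x ∈ X) (h : 3 / 2 < ℓ x + ℓ a) : 0 ≤ co a x := by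
  by_contra h1
  push Not at h1
  have h2 := C.lev_le (C.add_mem ha hx h1)
  rw [map_add] at h2
  linarith

theorem Cf.le_one {a x : E} (ha : a ∈ Φ) (hx : x ∈ X) (h : ℓ x - 2 * ℓ a < -(3 / 2)) : co a x ≤ 1 := by
  by_contra h1
  push Not at h1
  obtain ⟨k, hk⟩ := C.sat.int a ha x hx
  have h2 : 2 ≤ k := by
    rw [hk] at h1
    have : 1 < k := by exact_mod_cast h1
    omega
  have h3 := C.sat.str a ha x hx 2 (by rw [hk]; exact_mod_cast h2)
  have h4 := C.le_lev h3
  have h5 : ℓ (x - ((2 : ℕ) : ℝ) • a) = ℓ x - 2 * ℓ a := by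
    rw [map_sub, map_smul]
    simp
  rw [h5] at h4
  linarith

/-- The pairing with a root of level two. -/
theorem Cf.zero_one {a x : E} (ha : a ∈ Φ) (hx : x ∈ X) (h : ℓ a = 2) (hx1 : 1 / 2 ≤ ℓ x) : co a x = 0 ∨ co a x = 1 := by
  have h1 := C.nonneg ha hx (by rw [h]; linarith)
  have h2 := C.le_one ha hx (by
    rw [h]
    have := C.lev_le hx
    linarith)
  obtain ⟨k, hk⟩ := C.sat.int a ha x hx
  rw [hk] at h1 h2 ⊢
  have h3 : 0 ≤ k := by exact_mod_cast h1
  have h4 : k ≤ 1 := by exact_mod_cast h2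
  have : k = 0 ∨ k = 1 := by omega
  rcases this with rfl | rfl
  · left; norm_num
  · right; norm_num

/-- (F2) Roots whose sum would have a level which is too large. -/
theorem Cf.root_nonneg {a b : E} (ha : a ∈ Φ) (hb : b ∈ Φ) {m : ℝ} (hm : ∀ g ∈ Φ, ℓ g ≤ m) (h : m < ℓ a + ℓ b)
    (h0 : 0 < ℓ a + ℓ b) : (0 : ℝ) ≤ inner ℝ a b := by
  by_contra h1
  push Not at h1
  have h2 := C.rs.add_mem ha hb h1 (by
    intro h3
    rw [h3, map_neg] at h0
    linarith)
  have h3 := hm _ h2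
  rw [map_add] at h3
  linarith

end cf

/-- The swap of two top weights of type `A`. -/
theorem swap_of_isA {p : ℕ} {ν : ℕ → E} (hA : IsA Φ p ν) {i j k : ℕ} (hi : i < p) (hj : j < p) (hk : k < p) (hij : i ≠ j) :
    ν k - co (ν i - ν j) (ν k) • (ν i - ν j) = ν (Equiv.swap i j k) := by
  obtain ⟨l, hl, h⟩ := hA
  obtain ⟨h1, h2, h3⟩ := h i hi j hj hij
  have h4 : co (ν i - ν j) (ν k) = (if k = i then 1 else 0) - (if k = j then 1 else 0) := by
    unfold co
    rw [h3 k hk, h2]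
    field_simp
  rw [h4]
  by_cases e1 : k = i
  · subst e1
    rw [if_pos rfl, if_neg hij, Equiv.swap_apply_left]
    simp
  · by_cases e2 : k = j
    · subst e2
      rw [if_neg (Ne.symm hij), if_pos rfl, Equiv.swap_apply_right]
      simp
    · rw [if_neg e1, if_neg e2, Equiv.swap_apply_of_ne_of_ne e1 e2]
      simp

end TR
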