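import Pool.Agent.Helper94.TR.Top3
import Pool.Agent.Helper2.PG.End

/-!
Project TR (MP_b8862a_ag): definitions. Four levels `3/2, 1/2, -1/2, -3/2`.
-/

set_option linter.unusedSectionVars false
set_option linter.unusedVariables false

namespace TR

open PF PG

variable {E : Type*} [NormedAddCommGroup E] [InnerProductSpace ℝ E]

/-- Roots with integral levels, weights with the levels `3/2, 1/2, -1/2, -3/2`. -/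
structure Cf (Φ X : Finset E) (ℓ : E →ₗ[ℝ] ℝ) : Prop where
  rs : RS Φ
  sat : Sat Φ X
  le2 : ∀ a ∈ Φ, ∀ b ∈ Φ, co a b ≤ 2
  int : ∀ a ∈ Φ, ∃ k : ℤ, ℓ a = k
  lev : ∀ x ∈ X, ℓ x = 3 / 2 ∨ ℓ x = 1 / 2 ∨ ℓ x = -(1 / 2) ∨ ℓ x = -(3 / 2)
  act : ∀ a ∈ Φ, ∃ x ∈ X, co a x ≠ 0

/-- The input from Lie theory. -/
structure Inp (Φ X : Finset E) (ℓ : E →ₗ[ℝ] ℝ) (p : ℕ) (ν : ℕ → E) : Prop where
  cf : Cf Φ X ℓ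
  top : ∀ x, (x ∈ X ∧ ℓ x = 3 / 2) ↔ ∃ i < p, x = ν i
  inj : ∀ i < p, ∀ j < p, ν i = ν j → i = j
  cfg : IsA Φ p ν ∨ (5 ≤ p ∧ IsB Φ p ν) ∨ (p = 3 ∧ IsB1 Φ ν)
  prime : p.Prime
  three : 3 ≤ p
  /-- at most one root of level three -/
  one3 : ∀ g ∈ Φ, ∀ g' ∈ Φ, ℓ g = 3 → ℓ g' = 3 → g = g'
  low : ∀ x ∈ X, ℓ x = 1 / 2 → ∃ i < p, ∃ b ∈ Φ, ℓ b = 1 ∧ x = ν i - b
  /-- no roots of level two and three: the product of three root vectors -/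
  chain : (∀ g ∈ Φ, ℓ g ≤ 1) → ∃ i < p, ∃ j < p, ∃ b₁ ∈ Φ, ∃ b₂ ∈ Φ, ∃ b₃ ∈ Φ, ℓ b₁ = 1 ∧ ℓ b₂ = 1 ∧ ℓ b₃ = 1 ∧
    ν i + ν j = b₁ + b₂ + b₃
  /-- no roots of level two and three, type `A`: the product of three root vectors is symmetric -/
  tri : (∀ g ∈ Φ, ℓ g ≤ 1) → IsA Φ p ν → ∃ i < p, ∃ b₁ ∈ Φ, ∃ b₂ ∈ Φ, ∃ b₃ ∈ Φ, ℓ b₁ = 1 ∧ ℓ b₂ = 1 ∧ ℓ b₃ = 1 ∧
    (2 : ℝ) • ν i = b₁ + b₂ + b₃
  /-- no roots of level three: the product of a root vector of level one and one of level two is antisymmetric -/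
  pair : (∀ g ∈ Φ, ℓ g ≤ 2) → ∀ b ∈ Φ, ℓ b = 2 → ∃ i < p, ∃ j < p, i ≠ j ∧ ∃ a ∈ Φ, ℓ a = 1 ∧ a + b = ν i + ν j
  line : (∀ g ∈ Φ, ℓ g ≤ 2) → ∀ i < p, ∀ b ∈ Φ, ∀ a ∈ Φ, ℓ b = 2 → ℓ a = 1 → a + b = (2 : ℝ) • ν i →
    co b (ν i) = 1 → co a (b - ν i) < 0 → False

/-- The final configuration: `Z` is the list of the known weights of level `1/2`. -/
def Final (Φ X : Finset E) (ℓ : E →ₗ[ℝ] ℝ) (p : ℕ) (ν : ℕ → E) (k h : ℕ) : Prop :=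
  9 + (p - 1) + h = 6 * k ∧ ∃ (l : ℝ) (t : E) (S : Finset ℕ) (Z : Finset E), 0 < l ∧ t ∈ Φ ∧ ℓ t = 2 ∧ inner ℝ t t = l ∧
    (∀ a ∈ Φ, inner ℝ a a = l ∨ inner ℝ a a = l / 2) ∧
    (∀ i < p, ∀ j < p, inner ℝ (ν i) (ν j) = if i = j then 3 * l / 4 else l / 4) ∧
    (∀ i ∈ S, i < p) ∧ S.card = k ∧ (∀ i < p, inner ℝ (ν i) t = if i ∈ S then l / 2 else (0 : ℝ)) ∧
    (∀ z ∈ Z, z ∈ X ∧ ℓ z = 1 / 2 ∧ ∀ i < p, inner ℝ z (ν i) = l / 4 ∨ inner ℝ z (ν i) = -(l / 4)) ∧ Z.card = h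

end TR
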