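import Pool.Agent.Helper94.PG.Main
import Pool.Agent.Helper94.TR.Basic
import Pool.Agent.Helper98.TR.Inp

/-!
Project TR (MP_b8862a_ag), block TR0: a prime number of weights on the level `3/2` gives a configuration of type
`A` or `B`.
-/

set_option linter.unusedSectionVars false
set_option linter.unusedVariables false

open Module LieModule LieAlgebra LieAlgebra.IsKilling MTP.MF

namespace TR

open PF PF.W PF.CC PF.L PG PG.L

section euclid

variable {E : Type*} [NormedAddCommGroup E] [InnerProductSpace ℝ E] {Φ X : Finset E} {ℓ : E →ₗ[ℝ] ℝ} (C : Cf Φ X ℓ)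
include C

/-- The orbit of a root under the reflections contains a root of positive level. -/
theorem Cf.conj {a : E} (ha : a ∈ Φ) : ∃ w, Wl Φ w ∧ 1 ≤ ℓ (w a) := by
  by_contra hcon
  push Not at hcon
  have h0 : ∀ w, Wl Φ w → ℓ (w a) = 0 := by
    intro w hw
    obtain ⟨k, hk⟩ := C.int _ (hw.mem C.rs ha)
    have h1 := hcon w hw
    have h2 := hcon _ (hw.refl (hw.mem C.rs ha))
    rw [C.rs.co_self (hw.mem C.rs ha)] at h2
    have h3 : ℓ (w a - (2 : ℝ) • w a) = -ℓ (w a) := by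
      rw [map_sub, map_smul, smul_eq_mul]
      ring
    rw [h3, hk] at h2
    rw [hk] at h1
    have h4 : k < 1 := by exact_mod_cast h1
    have h5 : -k < 1 := by exact_mod_cast h2
    have h6 : k = 0 := by omega
    rw [hk, h6]
    simp
  obtain ⟨b, hb, hb0, hab⟩ := C.exists_lev ha (h0 _ Wl.one)
  have h1 := h0 _ (Wl.one.refl hb)
  have h2 : ℓ (a - co b a • b) = 0 := h1
  have h3 : ℓ a = 0 := h0 _ Wl.one
  rw [map_sub, map_smul, smul_eq_mul, h3, zero_sub, neg_eq_zero] at h2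
  rcases mul_eq_zero.1 h2 with h4 | h4
  · exact hab ((inn_eq_zero C.rs hb a).2 h4)
  · exact hb0 h4

/-- The pairings of the weights are at most three. -/
theorem Cf.co_le_three {a x : E} (ha : a ∈ Φ) (hx : x ∈ X) : co a x ≤ 3 := by
  obtain ⟨w, hw, hwa⟩ := C.conj ha
  rw [← hw.co C.rs]
  have ha' := hw.mem C.rs ha
  have hx' := hw.memX C.rs C.sat hx
  have h1 := C.le_lev (C.reflX ha' hx')
  have h2 := C.lev_le hx'
  rw [map_sub, map_smul, smul_eq_mul] at h1
  by_contra h3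
  push Not at h3
  nlinarith

end euclid

variable {K : Type*} [Field K] [CharZero K] [IsAlgClosed K]
  {L : Type*} [LieRing L] [LieAlgebra K L] [FiniteDimensional K L] [IsKilling K L]
  {H : LieSubalgebra K L} [H.IsCartanSubalgebra]
  {V : Type*} [AddCommGroup V] [Module K V] [FiniteDimensional K V]
  [LieRingModule L V] [LieModule K L V] {I : Type*} [Fintype I] (B : WB (V := V) H I)

/-- A root system with a non-integral weight is not of type `G₂`. -/
theorem pairing_le94 [(rootSystem H).IsIrreducible] {D : H} (hint : ∀ α : H.root, ∃ k : ℤ, α.1 D = (k : K)) {i : I}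
    (hi : ∀ k : ℤ, B.w i D ≠ k) (α β : H.root) : (rootSystem H).pairingIn ℤ α β ≤ 2 := by
  by_contra hcon
  push Not at hcon
  have h1 := (rootSystem H).pairingIn_pairingIn_mem_set_of_isCrystal_of_isRed α β
  have h3 : (rootSystem H).pairingIn ℤ α β = 3 ∧ (rootSystem H).pairingIn ℤ β α = 1 := by
    simp only [Set.mem_insert_iff, Set.mem_singleton_iff, Prod.mk.injEq] at h1
    omega
  let _ : (rootSystem H).EmbeddedG2 := RootPairing.EmbeddedG2.ofPairingInThree (rootSystem H) α β h3.1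
  have h4 := RootPairing.EmbeddedG2.span_eq_top (rootSystem H)
  have h5 : B.w i ∈ (⊤ : Submodule K (Dual K H)) := trivial
  rw [← h4, Submodule.mem_span_pair] at h5
  obtain ⟨m, n, hmn⟩ := h5
  have e1 : RootPairing.EmbeddedG2.longRoot (rootSystem H) = -(rootSystem H).root α := by
    change (rootSystem H).root ((rootSystem H).reflectionPerm α α) = _
    rw [(rootSystem H).root_reflectionPerm, (rootSystem H).reflection_apply_self]
  have e2 : RootPairing.EmbeddedG2.shortRoot (rootSystem H) = (rootSystem H).root β := rfl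
  rw [e1, e2] at hmn
  have f1 : (rootSystem H).root α (coroot α.1) = 2 := by
    have := rt_spec (H := H) α α
    rw [rt_self] at this
    exact_mod_cast this
  have f2 : (rootSystem H).root β (coroot β.1) = 2 := by
    have := rt_spec (H := H) β β
    rw [rt_self] at this
    exact_mod_cast this
  have f3 : (rootSystem H).root α (coroot β.1) = 3 := by
    have := rt_spec (H := H) α β
    rw [show rt (rootSystem H) α β = 3 from h3.1] at this
    exact_mod_cast this
  have f4 : (rootSystem H).root β (coroot α.1) = 1 := by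
    have := rt_spec (H := H) β α
    rw [show rt (rootSystem H) β α = 1 from h3.2] at this
    exact_mod_cast this
  have g1 : B.w i (coroot α.1) = -m * 2 + n * 1 := by
    rw [← hmn, LinearMap.add_apply, LinearMap.smul_apply, LinearMap.smul_apply, LinearMap.neg_apply, f1, f4]
    simp
  have g2 : B.w i (coroot β.1) = -m * 3 + n * 2 := by
    rw [← hmn, LinearMap.add_apply, LinearMap.smul_apply, LinearMap.smul_apply, LinearMap.neg_apply, f3, f2]
    simp
  rw [wt_spec] at g1 g2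
  obtain ⟨ka, hka⟩ := hint α
  obtain ⟨kb, hkb⟩ := hint β
  have g3 : B.w i D = -m * ka + n * kb := by
    rw [← hmn, LinearMap.add_apply, LinearMap.smul_apply, LinearMap.smul_apply, LinearMap.neg_apply]
    have a1 : (rootSystem H).root α D = ka := hka
    have a2 : (rootSystem H).root β D = kb := hkb
    rw [a1, a2]
    simp
  apply hi ((2 * wt B i α - wt B i β) * ka + (2 * wt B i β - 3 * wt B i α) * kb)
  rw [g3]
  push_cast
  rw [g1, g2]
  ring

/-- A base for which an element with integral values is dominant. -/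
theorem exists_dom94 {D : H} (hint : ∀ α : H.root, ∃ k : ℤ, α.1 D = (k : K)) :
    ∃ b : (rootSystem H).Base, Dom b D := by
  obtain ⟨π, hπ⟩ := exists_proj K
  let l : Dual K H →+ ℚ := π.toAddMonoidHom.comp (LinearMap.applyₗ (R := K) D : Dual K H →ₗ[K] K).toAddMonoidHom
  obtain ⟨b, hb⟩ := exists_base_nonneg (rootSystem H) l
  refine ⟨b, fun i hi => ?_⟩
  have h1 := hb i hi
  have h2 : l ((rootSystem H).root i) = π (i.1 D) := rfl
  rw [h2] at h1
  have h3 : (rootSystem H).toLinearMap ((rootSystem H).root i) D = i.1 D := rfl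
  rw [h3]
  obtain ⟨k, hk⟩ := hint i
  have h4 := hπ k
  have h5 : ((k : ℚ) : K) = (k : K) := by push_cast; rfl
  rw [h5, ← hk] at h4
  rw [h4] at h1
  have h6 : 0 ≤ k := by exact_mod_cast h1
  obtain ⟨n, rfl⟩ := Int.eq_ofNat_of_zero_le h6
  exact ⟨n, by rw [hk]; simp⟩

open Classical in
/-- the weights with the value `c` -/
noncomputable def Yc (D : H) (c : K) : Finset (EuclideanSpace ℝ H.root) :=
  (Finset.univ.filter fun i : I => B.w i D = c).image fun i => vec (wt B i)

theorem mem_Yc {D : H} {c : K} {v : EuclideanSpace ℝ H.root} :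
    v ∈ Yc B D c ↔ ∃ i : I, B.w i D = c ∧ vec (wt B i) = v := by
  classical
  simp [Yc]

theorem top3_94 [(rootSystem H).IsIrreducible] {D : H} {c : K}
    (h2 : ∀ (α : H.root) (i : I), wt B i α ≤ 3)
    (h3 : ∀ α β : H.root, (rootSystem H).pairingIn ℤ α β ≤ 2) : PG.Top3 (Ph0 D) (Yc B D c) := by
  have hR : ∀ α : H.root, RS (Ph (rootSystem H)) := fun α => by
    have : Nonempty H.root := ⟨α⟩
    exact rs (rootSystem H)
  constructor
  · intro a ha
    obtain ⟨α, h0, rfl⟩ := mem_Ph0.1 ha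
    exact (hR α).ne_zero _ ((mem_Ph _).2 ⟨α, rfl⟩)
  · intro a ha b hb
    obtain ⟨α, h0, rfl⟩ := mem_Ph0.1 ha
    obtain ⟨β, h0', rfl⟩ := mem_Ph0.1 hb
    exact ⟨_, co_vec _ (wt_rt _ β) α⟩
  · intro a ha b hb
    obtain ⟨α, h0, rfl⟩ := mem_Ph0.1 ha
    obtain ⟨β, h0', rfl⟩ := mem_Ph0.1 hb
    rw [co_vec _ (wt_rt _ β) α, ← vec_sub_smul]
    refine mem_Ph0.2 ⟨(rootSystem H).reflectionPerm α β, ?_, ?_⟩
    · have h1 : (rootSystem H).root ((rootSystem H).reflectionPerm α β) =
          (rootSystem H).root β - (rootSystem H).pairing β α • (rootSystem H).root α := by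
        rw [(rootSystem H).root_reflectionPerm, (rootSystem H).reflection_apply_root]
      have h2 : (rootSystem H).root ((rootSystem H).reflectionPerm α β) D =
          (rootSystem H).root β D - (rootSystem H).pairing β α * (rootSystem H).root α D := by
        rw [h1, LinearMap.sub_apply, LinearMap.smul_apply, smul_eq_mul]
      have h4 : (rootSystem H).root α D = 0 := h0
      have h5 : (rootSystem H).root β D = 0 := h0'
      rw [h4, h5, mul_zero, sub_zero] at h2
      exact h2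
    · congr 1
      funext k
      rw [rt_refl_left]
      rfl
  · intro a ha c hc
    obtain ⟨α, h0, rfl⟩ := mem_Ph0.1 ha
    obtain ⟨β, h0', h1⟩ := mem_Ph0.1 hc
    exact (hR α).red _ ((mem_Ph _).2 ⟨α, rfl⟩) c ((mem_Ph _).2 ⟨β, h1⟩)
  · intro a ha b hb
    obtain ⟨α, h0, rfl⟩ := mem_Ph0.1 ha
    obtain ⟨β, h0', rfl⟩ := mem_Ph0.1 hb
    rw [co_vec _ (wt_rt _ β) α]
    exact_mod_cast h3 β α
  · intro a ha x hx
    obtain ⟨α, h0, rfl⟩ := mem_Ph0.1 ha
    obtain ⟨i, h1, rfl⟩ := (mem_Yc B).1 hx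
    exact ⟨_, co_vec _ (wt_wt B i) α⟩
  · intro a ha x hx j hj
    obtain ⟨α, h0, rfl⟩ := mem_Ph0.1 ha
    obtain ⟨i, hi, rfl⟩ := (mem_Yc B).1 hx
    rw [co_vec _ (wt_wt B i) α] at hj
    have hj' : (j : ℤ) ≤ wt B i α := by exact_mod_cast hj
    obtain ⟨b, n, h1, h2⟩ := string B α i
    have h3 : wt B i α = n - 2 * b := by
      have h4 : ((wt B i α : ℤ) : K) = ((n - 2 * b : ℤ) : K) := by
        rw [← wt_spec, h1]
        push_cast
        ring
      exact_mod_cast h4
    obtain ⟨i', hi'⟩ := h2 (b + j) (by omega)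
    refine (mem_Yc B).2 ⟨i', ?_, ?_⟩
    · rw [hi' D, h0, mul_zero, add_zero, hi]
    · rw [wt_of B (i := i) (α := α) (k := -(j : ℤ)) (fun x => by
        rw [hi' x]
        push_cast
        ring)]
      rw [neg_smul, ← sub_eq_add_neg, vec_sub_smul]
      simp
  · intro a ha x hx
    obtain ⟨α, h0, rfl⟩ := mem_Ph0.1 ha
    obtain ⟨i, hi, rfl⟩ := (mem_Yc B).1 hx
    rw [co_vec _ (wt_wt B i) α]
    exact_mod_cast h2 α i

open Classical in
/-- **The configuration of the top level.** -/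
theorem config_of94 (hirr : ∀ W : Submodule K V, (∀ x : L, ∀ u ∈ W, ⁅x, u⁆ ∈ W) → W = ⊥ ∨ W = ⊤)
    (hfaith : ∀ x : L, (∀ u : V, ⁅x, u⁆ = 0) → x = 0) [Nonempty I] [(rootSystem H).IsIrreducible]
    (b : (rootSystem H).Base) {D : H}
    (hD : Dom b D) {c : K} (hV : ∀ i, ∃ n : ℕ, B.w i D = c - n) (hne : ∃ i, B.w i D = c) {s : ℕ}
    (hs : (Finset.univ.filter fun i => B.w i D = c).card = s) (hp : s.Prime) (h5 : 3 ≤ s)
    (h2 : ∀ (α : H.root) (i : I), wt B i α ≤ 3)
    (h3 : ∀ α β : H.root, (rootSystem H).pairingIn ℤ α β ≤ 2)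
    (hch : ∀ f : Dual K H, (∀ j ∈ b.support, ∃ k : ℕ, f (coroot j.1) = (k : K)) →
      ∀ α : H.root, b.IsPos α → α.1 D = 0 → f (coroot α.1) ≠ 0 → b.flip.height α ≤
        ((Finset.univ.filter fun β : H.root => b.IsPos β ∧ β.1 D = 0 ∧ f (coroot β.1) ≠ 0).card : ℤ)) :
    ∃ ν : ℕ → EuclideanSpace ℝ H.root, (∀ i, B.w i D = c → ∃ j < s, ν j = vec (wt B i)) ∧
      (∀ j < s, ∃ i, B.w i D = c ∧ ν j = vec (wt B i)) ∧
      (∀ i < s, ∀ j < s, ν i = ν j → i = j) ∧
      (∀ i j, B.w i D = c → B.w j D = c → vec (wt B i) = vec (wt B j) → i = j) ∧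
      (IsA (Ph (rootSystem H)) s ν ∨ (5 ≤ s ∧ IsB (Ph (rootSystem H)) s ν) ∨ (s = 3 ∧ IsB1 (Ph (rootSystem H)) ν)) := by
  obtain ⟨t, ht1, ht2, ht3⟩ := levi B hirr hfaith b hD
  have htD : B.w t D = c := by
    obtain ⟨i, hi⟩ := hne
    obtain ⟨κ, hκ⟩ := ht1 i
    have h6 : ∀ j ∈ b.support, ∃ k : ℕ, (rootSystem H).root j D = (k : K) := hD
    choose! k hk using h6
    have h7 : B.w t D = c + ((∑ j ∈ b.support, κ j * k j : ℕ) : K) := by
      have h8 : B.w i D = B.w t D - ((∑ j ∈ b.support, κ j * k j : ℕ) : K) := by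
        rw [hκ, LinearMap.sub_apply, LinearMap.sum_apply]
        congr 1
        push_cast
        refine Finset.sum_congr rfl fun j hj => ?_
        rw [LinearMap.smul_apply, hk j hj, smul_eq_mul]
      rw [hi] at h8
      linear_combination -h8
    generalize (∑ j ∈ b.support, κ j * k j : ℕ) = n at h7
    obtain ⟨m, hm⟩ := hV t
    rw [hm] at h7
    have : ((m + n : ℕ) : K) = 0 := by
      push_cast
      linear_combination -h7
    have h10 : m + n = 0 := by exact_mod_cast this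
    have h11 : m = 0 := by omega
    rw [hm, h11]
    simp
  rw [htD, hs] at ht3
  obtain ⟨hpos, α, hα, hαD, hm, hle⟩ := prime_root B b ht2 hp ht3
  have hT := top3_94 B (D := D) (c := c) h2 h3
  have hlam : vec (wt B t) ∈ Yc B D c := (mem_Yc B).2 ⟨t, htD, rfl⟩
  have ha : vec (rt (rootSystem H) α) ∈ Ph0 D := mem_Ph0.2 ⟨α, hαD, rfl⟩
  have hco : co (vec (rt (rootSystem H) α)) (vec (wt B t)) = wt B t α := co_vec _ (wt_wt B t) α
  have hYs : (Yc B D c).card ≤ s := by
    rw [← hs]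
    exact Finset.card_image_le
  have hcount : (b.flip.height α : ℤ) ≤ ((PP (Ph0 D) (vec (wt B t))).card : ℤ) := by
    have h6 := hch (B.w t) ht2 α hα hαD (by
      rw [wt_spec]
      intro h
      have : wt B t α = 0 := by exact_mod_cast h
      omega)
    refine h6.trans ?_
    have h7 : (Finset.univ.filter fun β : H.root => b.IsPos β ∧ β.1 D = 0 ∧ B.w t (coroot β.1) ≠ 0).card =
        ((Finset.univ.filter fun β : H.root => b.IsPos β ∧ β.1 D = 0 ∧ B.w t (coroot β.1) ≠ 0).image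
          fun β => vec (rt (rootSystem H) β)).card := by
      rw [Finset.card_image_of_injective]
      intro β γ h
      exact rt_inj (rootSystem H) (vec_inj h)
    rw [h7]
    have h8 : ((Finset.univ.filter fun β : H.root => b.IsPos β ∧ β.1 D = 0 ∧ B.w t (coroot β.1) ≠ 0).image
          fun β => vec (rt (rootSystem H) β)) ⊆ PP (Ph0 D) (vec (wt B t)) := by
      intro v hv
      rw [Finset.mem_image] at hv
      obtain ⟨β, hβ, rfl⟩ := hv
      rw [Finset.mem_filter] at hβ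
      obtain ⟨-, hβ1, hβ2, hβ3⟩ := hβ
      unfold PP
      rw [Finset.mem_filter]
      refine ⟨mem_Ph0.2 ⟨β, hβ2, rfl⟩, ?_⟩
      rw [co_vec _ (wt_wt B t) β]
      have h9 := hpos β hβ1
      have h10 : wt B t β ≠ 0 := by
        intro h
        apply hβ3
        rw [wt_spec, h]
        simp
      have h11 : 1 ≤ wt B t β := by omega
      exact_mod_cast h11
    exact_mod_cast Finset.card_le_card h8
  obtain ⟨hYcard, ν, hν1, hν2, hν3, hν4⟩ := PG.config_all3 hT hlam ha (by rw [hco]; exact_mod_cast hm) hYs (by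
    rw [hco]
    have h6 : (s : ℤ) ≤ wt B t α + ((PP (Ph0 D) (vec (wt B t))).card : ℤ) := by linarith
    exact_mod_cast h6) (hp.odd_of_ne_two (by omega)) h5
  refine ⟨ν, ?_, ?_, hν2, ?_, ?_⟩
  · intro i hi
    obtain ⟨j, hj, h6⟩ := hν3 _ ((mem_Yc B).2 ⟨i, hi, rfl⟩)
    exact ⟨j, hj, h6⟩
  · intro j hj
    obtain ⟨i, hi, h6⟩ := (mem_Yc B).1 (hν1 j hj)
    exact ⟨i, hi, h6.symm⟩
  · have hinj : Set.InjOn (fun i => vec (wt B i)) ((Finset.univ.filter fun i => B.w i D = c : Finset I) : Set I) := by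
      rw [← Finset.card_image_iff]
      rw [hs, ← hYcard]
      rfl
    intro i j hi hj hij
    exact hinj (by simpa using hi) (by simpa using hj) hij
  · have hsub : Ph0 D ⊆ Ph (rootSystem H) := by
      intro v hv
      obtain ⟨α, -, h6⟩ := mem_Ph0.1 hv
      exact (mem_Ph _).2 ⟨α, h6⟩
    rcases hν4 with h6 | ⟨h7, h6⟩ | ⟨h7, τ, e, l, a1, a2, a3, a4, a5, a6⟩
    · exact Or.inl (IsA.mono hsub h6)
    · exact Or.inr (Or.inl ⟨h7, IsB.mono hsub h6⟩)
    · exact Or.inr (Or.inr ⟨h7, τ, e, l, a1, a2, a3, hsub a4, hsub a5, a6⟩)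

variable {ω : LinearMap.BilinForm K V} {ℓ : EuclideanSpace ℝ H.root →ₗ[ℝ] ℝ}

/-- `3/2` is not an integer -/
theorem Four.not_int {c : K} (h : Four c) (k : ℤ) : c ≠ k := by
  intro h1
  rw [h1] at h
  have hz : ∀ m : ℤ, (m : K) = 0 → m = 0 := fun m hm => by exact_mod_cast hm
  rcases h with h | h | h | h
  · have := hz (2 * k - 3) (by push_cast; rw [h]; ring)
    omega
  · have := hz (2 * k - 1) (by push_cast; rw [h]; ring)
    omega
  · have := hz (2 * k + 1) (by push_cast; rw [h]; ring)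
    omega
  · have := hz (2 * k + 3) (by push_cast; rw [h]; ring)
    omega

/-- The basic configuration. -/
theorem cf94 [Nonempty I] [Nonempty H.root] [(rootSystem H).IsIrreducible]
    (hirr : ∀ W : Submodule K V, (∀ x : L, ∀ u ∈ W, ⁅x, u⁆ ∈ W) → W = ⊥ ∨ W = ⊤)
    (hfaith : ∀ x : L, (∀ u : V, ⁅x, u⁆ = 0) → x = 0)
    (hnd : ω.Nondegenerate) (hsk : ∀ (x : L) (u v : V), ω ⁅x, u⁆ v = - ω u ⁅x, v⁆)
    {D : H} (hℓ : IsLev D ℓ) (hint : ∀ α : H.root, ∃ k : ℤ, α.1 D = (k : K)) (hw : ∀ i, Four (B.w i D)) :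
    Cf (Ph (rootSystem H)) (Xw B) ℓ where
  rs := rs (rootSystem H)
  sat := sat B hirr hnd hsk
  le2 := by
    intro a ha b hb
    obtain ⟨α, rfl⟩ := (mem_Ph _).1 ha
    obtain ⟨β, rfl⟩ := (mem_Ph _).1 hb
    rw [co_vec _ (wt_rt _ β) α]
    have i : I := Classical.arbitrary I
    exact_mod_cast pairing_le94 B hint (fun k => (hw i).not_int k) β α
  int := by
    intro a ha
    obtain ⟨α, rfl⟩ := (mem_Ph _).1 ha
    obtain ⟨k, hk⟩ := hint α
    exact ⟨k, hℓ.root hk⟩
  lev := by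
    intro x hx
    obtain ⟨i, rfl⟩ := (mem_Xw B).1 hx
    exact (four_lev98 B hℓ (hw i)).2.2
  act := by
    intro a ha
    obtain ⟨α, rfl⟩ := (mem_Ph _).1 ha
    by_contra hcon
    push Not at hcon
    have h1 : ∀ i, B.w i (coroot α.1) = 0 := by
      intro i
      have h2 := hcon _ ((mem_Xw B).2 ⟨i, rfl⟩)
      rw [co_vec _ (wt_wt B i) α] at h2
      have h3 : wt B i α = 0 := by exact_mod_cast h2
      rw [wt_spec, h3, Int.cast_zero]
    have h4 : ((coroot α.1 : H) : L) = 0 := by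
      apply hfaith
      intro u
      rw [← B.v.sum_repr u, lie_sum]
      refine Finset.sum_eq_zero fun i _ => ?_
      rw [lie_smul, B.lie_v, h1, zero_smul, smul_zero]
    have h5 : (coroot α.1 : H) = 0 := by exact_mod_cast h4
    have h6 : (rootSystem H).root α (coroot α.1) = 2 := by
      have := rt_spec (H := H) α α
      rw [rt_self] at this
      exact_mod_cast this
    rw [h5, map_zero] at h6
    norm_num at h6

open Classical in
/-- **A prime number of weights on the level `3/2`.** -/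
theorem config94 [Nonempty I] [Nonempty H.root] [(rootSystem H).IsIrreducible]
    (hirr : ∀ W : Submodule K V, (∀ x : L, ∀ u ∈ W, ⁅x, u⁆ ∈ W) → W = ⊥ ∨ W = ⊤)
    (hfaith : ∀ x : L, (∀ u : V, ⁅x, u⁆ = 0) → x = 0)
    (hnd : ω.Nondegenerate) (hsk : ∀ (x : L) (u v : V), ω ⁅x, u⁆ v = - ω u ⁅x, v⁆)
    {D : H} (hℓ : IsLev D ℓ) (hint : ∀ α : H.root, ∃ k : ℤ, α.1 D = (k : K)) (hw : ∀ i, Four (B.w i D)) {p : ℕ}
    (hs : (Finset.univ.filter fun i => B.w i D = 3 / 2).card = p) (hp : p.Prime) (h3 : 3 ≤ p) :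
    ∃ ν : ℕ → EuclideanSpace ℝ H.root, Cf (Ph (rootSystem H)) (Xw B) ℓ ∧
      (∀ x, (x ∈ Xw B ∧ ℓ x = 3 / 2) ↔ ∃ i < p, x = ν i) ∧
      (∀ i < p, ∀ j < p, ν i = ν j → i = j) ∧
      (∀ i j, B.w i D = 3 / 2 → B.w j D = 3 / 2 → B.w i = B.w j → i = j) ∧
      (IsA (Ph (rootSystem H)) p ν ∨ (5 ≤ p ∧ IsB (Ph (rootSystem H)) p ν) ∨ (p = 3 ∧ IsB1 (Ph (rootSystem H)) ν)) := by
  have C := cf94 B hirr hfaith hnd hsk hℓ hint hw
  obtain ⟨b, hD⟩ := exists_dom94 hint
  have i0 : I := Classical.arbitrary I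
  have hpair := pairing_le94 B hint (fun k => (hw i0).not_int k)
  have hne : ∃ i, B.w i D = 3 / 2 := by
    by_contra! hcon
    rw [Finset.filter_false_of_mem (fun i _ => hcon i), Finset.card_empty] at hs
    omega
  have h2 : ∀ (α : H.root) (i : I), wt B i α ≤ 3 := by
    intro α i
    have h4 := C.co_le_three ((mem_Ph _).2 ⟨α, rfl⟩) ((mem_Xw B).2 ⟨i, rfl⟩)
    rw [co_vec _ (wt_wt B i) α] at h4
    exact_mod_cast h4
  obtain ⟨ν, h4, h5, h6, h7, h8⟩ := config_of94 B hirr hfaith b hD (c := 3 / 2)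
    (fun i => by
      rcases hw i with h | h | h | h
      · exact ⟨0, by rw [h]; simp⟩
      · exact ⟨1, by rw [h]; push_cast; ring⟩
      · exact ⟨2, by rw [h]; push_cast; ring⟩
      · exact ⟨3, by rw [h]; push_cast; ring⟩) hne hs hp h3 h2 hpair
    (fun f hf α hα hαD hfα => coroot_count b hD hpair f hf α hα hαD hfα)
  refine ⟨ν, C, ?_, h6, ?_, h8⟩
  · intro x
    constructor
    · rintro ⟨hx, hx1⟩
      obtain ⟨i, rfl⟩ := (mem_Xw B).1 hx
      obtain ⟨j, hj, h10⟩ := h4 i ((four_lev98 B hℓ (hw i)).1.1 hx1)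
      exact ⟨j, hj, h10.symm⟩
    · rintro ⟨j, hj, rfl⟩
      obtain ⟨i, hi, h10⟩ := h5 j hj
      rw [h10]
      exact ⟨(mem_Xw B).2 ⟨i, rfl⟩, (four_lev98 B hℓ (hw i)).1.2 hi⟩
  · intro i j hi hj hij
    refine h7 i j hi hj ?_
    congr 1
    funext α
    have h9 : ((wt B i α : ℤ) : K) = ((wt B j α : ℤ) : K) := by
      rw [← wt_spec, ← wt_spec, hij]
    exact_mod_cast h9

end TR
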