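import Pool.Agent.Helper94.TR.TypeB
import Pool.Agent.Helper95.TR.TR3A
import Pool.Agent.Helper95.TR.TR4
import Pool.Agent.Helper43.TR.TR3B

/-!
Project TR (MP_b8862a_ag): the final configurations.
-/

set_option linter.unusedSectionVars false
set_option linter.unusedVariables false

namespace TR

open PF PG

variable {E : Type*} [NormedAddCommGroup E] [InnerProductSpace ℝ E] {Φ X : Finset E} {ℓ : E →ₗ[ℝ] ℝ}
  {p : ℕ} {ν : ℕ → E}

/-- **The final configurations.** -/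
theorem Inp.final (I : Inp Φ X ℓ p ν) :
    (p = 3 ∧ Final Φ X ℓ p ν 3 7) ∨ (p = 5 ∧ Final Φ X ℓ p ν 4 11) ∨ (p = 7 ∧ Final Φ X ℓ p ν 6 21) := by
  have h2 := I.lev_le_two
  have hA := I.isA
  obtain ⟨b, hb, hb2⟩ := I.exists_two
  obtain ⟨t, ht, ht2, hmax⟩ := I.cf.exists_long h2 hb hb2
  by_cases hz : ∃ z < p, co t (ν z) = 0
  · obtain ⟨z, hz, hz0⟩ := hz
    rcases I.tr3b hA h2 ht ht2 hmax hz hz0 with ⟨h3, h4⟩ | ⟨h3, h4⟩
    · subst h3
      exact Or.inr (Or.inl ⟨rfl, h4⟩)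
    · subst h3
      exact Or.inr (Or.inr ⟨rfl, h4⟩)
  · push Not at hz
    obtain ⟨l, M, A⟩ := I.toA3 hA h2
    left
    exact tr3A A ht ht2 hmax (fun i hi => (A.zero_one ht ht2 hi).resolve_left (hz i hi)) I.prime

/-- **The values of `p` and `h`.** -/
theorem Inp.list (I : Inp Φ X ℓ p ν) (m : E → ℝ) (hm : ∀ x ∈ X, 1 ≤ m x)
    (hW : ∀ a ∈ Φ, ∀ x ∈ X, m (x - co a x • a) = m x) (hneg : ∀ x ∈ X, m (-x) = m x) (hone : ∀ i < p, m (ν i) = 1) :
    (p = 3 ∧ ∑ x ∈ X with ℓ x = 1 / 2, m x = 7) ∨ (p = 5 ∧ ∑ x ∈ X with ℓ x = 1 / 2, m x = 11) ∨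
    (p = 7 ∧ ∑ x ∈ X with ℓ x = 1 / 2, m x = 21) := by
  have hp : 0 < p := by have := I.three; omega
  rcases I.final with ⟨h3, F⟩ | ⟨h3, F⟩ | ⟨h3, F⟩
  · left
    refine ⟨h3, ?_⟩
    rw [count I.cf F hp I.top I.inj I.low m hm hW hneg hone]
    norm_num
  · right; left
    refine ⟨h3, ?_⟩
    rw [count I.cf F hp I.top I.inj I.low m hm hW hneg hone]
    norm_num
  · right; right
    refine ⟨h3, ?_⟩
    rw [count I.cf F hp I.top I.inj I.low m hm hW hneg hone]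
    norm_num

end TR
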