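import Pool.Agent.Helper94.TR.Three

/-!
Project TR (MP_b8862a_ag), block TR2: there are roots of level two.
-/

set_option linter.unusedSectionVars false
set_option linter.unusedVariables false

namespace TR

open PF PG

variable {E : Type*} [NormedAddCommGroup E] [InnerProductSpace ℝ E] {Φ X : Finset E} {ℓ : E →ₗ[ℝ] ℝ}

/-- The grading if there are no roots of level two. -/
theorem Cf.toLev (C : Cf Φ X ℓ) (h1 : ∀ g ∈ Φ, ℓ g ≤ 1) : Lev Φ ℓ.toAddMonoidHom where
  toRS := C.rs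
  lev := by
    intro a ha
    have h2 := h1 a ha
    have h3 := h1 _ (C.neg ha)
    rw [map_neg] at h3
    have h4 : ℓ.toAddMonoidHom a = ℓ a := rfl
    rw [h4]
    rcases C.levels ha with h | h | h | h | h | h | h <;> rw [h] at h2 h3 ⊢
    · norm_num at h3
    · norm_num at h3
    · right; right; rfl
    · left; rfl
    · right; left; rfl
    · norm_num at h2
    · norm_num at h2
  ex := by
    by_contra hcon
    push Not at hcon
    have h2 : ∀ c ∈ Φ, ℓ c = 0 := by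
      intro c hc
      have h3 := h1 c hc
      have h4 := h1 _ (C.neg hc)
      rw [map_neg] at h4
      have h5 : ℓ c ≠ 1 := hcon c hc
      have h6 : ℓ (-c) ≠ 1 := hcon (-c) (C.neg hc)
      rw [map_neg] at h6
      rcases C.levels hc with h | h | h | h | h | h | h <;> rw [h] at h3 h4 h5 h6 <;>
        first | exact h | (exfalso; norm_num at h3; done) | (exfalso; norm_num at h4; done) | (exfalso; norm_num at h5; done) | (exfalso; norm_num at h6)
    obtain ⟨x, hx⟩ := C.sat.nonempty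
    have h3 := C.sat.coset x hx (-x) (C.sat.neg x hx)
    have h4 : ∀ z ∈ AddSubgroup.closure (Φ : Set E), ℓ z = 0 := by
      intro z hz
      induction hz using AddSubgroup.closure_induction with
      | mem z hz => exact h2 z hz
      | zero => exact map_zero _
      | add z w _ _ h5 h6 => rw [map_add, h5, h6, add_zero]
      | neg z _ h5 => rw [map_neg, h5, neg_zero]
    have h5 := h4 _ h3
    rw [map_sub, map_neg] at h5
    rcases C.lev x hx with h6 | h6 | h6 | h6 <;> rw [h6] at h5 <;> norm_num at h5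

/-- A vector orthogonal to all roots, whose double is in the root lattice, is zero. -/
theorem eq_zero_of_orth {v : E} (h : ∀ g ∈ Φ, (inner ℝ v g : ℝ) = 0) (h2 : v + v ∈ AddSubgroup.closure (Φ : Set E)) :
    v = 0 := by
  have h4 : ∀ z ∈ AddSubgroup.closure (Φ : Set E), (inner ℝ v z : ℝ) = 0 := by
    intro z hz
    induction hz using AddSubgroup.closure_induction with
    | mem z hz => exact h z hz
    | zero => exact inner_zero_right _
    | add z w _ _ h5 h6 => rw [inner_add_right, h5, h6, add_zero]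
    | neg z _ h5 => rw [inner_neg_right, h5, neg_zero]
  have h5 := h4 _ h2
  rw [inner_add_right] at h5
  exact inner_self_eq_zero.1 (by linarith : (inner ℝ v v : ℝ) = 0)

section tb

variable {r : ℕ} {τ : E} {e : ℕ → E} {ε : ℝ} (T : TB Φ X ℓ r τ e ε) (C : Cf Φ X ℓ)
include T C

/-- The components of the top weights. -/
theorem TB.comp {x : E} (hx : x ∈ X) (h : ℓ x = 3 / 2) {i : ℕ} (hi : i < r) :
    ∃ m : ℤ, (inner ℝ x (e i) : ℝ) = m * ε := by
  rcases (T.top x).1 ⟨hx, h⟩ with h1 | ⟨j, hj, h1 | h1⟩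
  · exact ⟨0, by rw [h1, T.tau i hi]; simp⟩
  · rw [h1, inner_add_left, T.tau i hi, T.gram j hj i hi]
    split_ifs
    · exact ⟨1, by simp⟩
    · exact ⟨0, by simp⟩
  · rw [h1, inner_sub_left, T.tau i hi, T.gram j hj i hi]
    split_ifs
    · exact ⟨-1, by simp⟩
    · exact ⟨0, by simp⟩

theorem TB.co_e {x : E} {i : ℕ} (hi : i < r) {m : ℤ} (h : (inner ℝ x (e i) : ℝ) = m * ε) :
    co (e i) x = 2 * m := by
  have h1 := T.pos
  unfold co
  rw [h, T.norm_e C hi]
  field_simp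

/-- `τ` is orthogonal to the roots of level zero. -/
theorem TB.tau_orth {a : E} (ha : a ∈ Φ) (h0 : ℓ a = 0) : (inner ℝ τ a : ℝ) = 0 := by
  have h1 := C.reflX ha (T.tau_mem C).1
  have h2 : ℓ (τ - co a τ • a) = 3 / 2 := by rw [map_sub, map_smul, h0, smul_zero, sub_zero, (T.tau_mem C).2]
  have h3 := T.eq_tau C h1 h2 (C.rs.inner_refl ha τ τ)
  have h4 : co a τ • a = 0 := by
    have h5 : τ - (τ - co a τ • a) = 0 := by rw [h3, sub_self]
    simpa using h5
  rcases smul_eq_zero.1 h4 with h5 | h5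
  · exact (inn_eq_zero C.rs ha τ).2 h5
  · exact absurd h5 (C.rs.ne_zero a ha)

/-- (F0) -/
theorem TB.zero {a : E} (ha : a ∈ Φ) (h0 : ℓ a = 0) : (∀ i < r, (inner ℝ a (e i) : ℝ) = 0) ∨
    ∃ x ∈ X, ∃ y ∈ X, ℓ x = 3 / 2 ∧ ℓ y = 3 / 2 ∧ a = x - y := by
  by_cases h : ∀ x ∈ X, ℓ x = 3 / 2 → co a x = 0
  · left
    intro i hi
    have h1 := h _ (T.add_mem C hi).1 (T.add_mem C hi).2
    have h2 := h _ (T.tau_mem C).1 (T.tau_mem C).2
    rw [co_add, h2, zero_add] at h1
    rw [real_inner_comm]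
    exact (inn_eq_zero C.rs ha (e i)).2 h1
  · right
    push Not at h
    obtain ⟨x, hx, hx3, hne⟩ := h
    rcases lt_or_gt_of_ne hne with h1 | h1
    · have h2 := C.add_mem ha hx h1
      exact ⟨x + a, h2, x, hx, by rw [map_add, h0, add_zero, hx3], hx3, by abel⟩
    · have h2 := C.sub_mem ha hx h1
      exact ⟨x, hx, x - a, h2, hx3, by rw [map_sub, h0, sub_zero, hx3], by abel⟩

/-- The pairing of a root of level zero with `e i` is even. -/
theorem TB.even {a : E} (ha : a ∈ Φ) (h0 : ℓ a = 0) {i : ℕ} (hi : i < r) :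
    ∃ m : ℤ, (inner ℝ a (e i) : ℝ) = m * ε := by
  rcases T.zero C ha h0 with h | ⟨x, hx, y, hy, hx3, hy3, rfl⟩
  · exact ⟨0, by rw [h i hi]; simp⟩
  · obtain ⟨m, hm⟩ := T.comp C hx hx3 hi
    obtain ⟨n, hn⟩ := T.comp C hy hy3 hi
    refine ⟨m - n, ?_⟩
    rw [inner_sub_left, hm, hn]
    push_cast
    ring

theorem TB.even_Z0 {z : E} (hz : z ∈ Z0 Φ ℓ.toAddMonoidHom) {i : ℕ} (hi : i < r) :
    ∃ m : ℤ, (inner ℝ z (e i) : ℝ) = m * ε := by
  unfold Z0 at hz
  induction hz using AddSubgroup.closure_induction with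
  | mem z hz => exact T.even C hz.1 hz.2 hi
  | zero => exact ⟨0, by simp⟩
  | add z w _ _ h5 h6 =>
    obtain ⟨m, hm⟩ := h5
    obtain ⟨n, hn⟩ := h6
    exact ⟨m + n, by rw [inner_add_left, hm, hn]; push_cast; ring⟩
  | neg z _ h5 =>
    obtain ⟨m, hm⟩ := h5
    exact ⟨-m, by rw [inner_neg_left, hm]; push_cast; ring⟩

/-- Type `B`: there are roots of level at least two. -/
theorem TB.no_one (h1 : ∀ g ∈ Φ, ℓ g ≤ 1) {x y : E} (hx : x ∈ X) (hy : y ∈ X) (hx3 : ℓ x = 3 / 2) (hy3 : ℓ y = 3 / 2)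
    {b₁ b₂ b₃ : E} (hb₁ : b₁ ∈ Φ) (hb₂ : b₂ ∈ Φ) (hb₃ : b₃ ∈ Φ) (l₁ : ℓ b₁ = 1) (l₂ : ℓ b₂ = 1) (l₃ : ℓ b₃ = 1)
    (hsum : x + y = b₁ + b₂ + b₃) : False := by
  have hL := C.toLev h1
  have h0r : 0 < r := T.one_le
  have hε := T.pos
  have he0 := T.mem 0 h0r
  have hle0 := T.lev_e C h0r
  have hne0 := T.norm_e C h0r
  -- orthogonality to the lattice of level zero
  have hZ : ∀ v : E, (∀ a ∈ Φ, ℓ a = 0 → (inner ℝ v a : ℝ) = 0) → ∀ z ∈ Z0 Φ ℓ.toAddMonoidHom, (inner ℝ v z : ℝ) = 0 := by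
    intro v hv z hz
    unfold Z0 at hz
    induction hz using AddSubgroup.closure_induction with
    | mem z hz => exact hv z hz.1 hz.2
    | zero => exact inner_zero_right _
    | add z w _ _ h5 h6 => rw [inner_add_right, h5, h6, add_zero]
    | neg z _ h5 => rw [inner_neg_right, h5, neg_zero]
  have hconst : ∀ v : E, (∀ a ∈ Φ, ℓ a = 0 → (inner ℝ v a : ℝ) = 0) → ∀ b ∈ Φ, ∀ b' ∈ Φ, ℓ b = 1 → ℓ b' = 1 →
      (inner ℝ v b : ℝ) = inner ℝ v b' := by
    intro v hv b hb b' hb' hb1 hb1'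
    have h2 := hZ v hv _ (hL.congr hb hb1 hb' hb1')
    rw [inner_sub_right] at h2
    linarith
  have horth : ∀ v : E, (∀ a ∈ Φ, ℓ a = 0 → (inner ℝ v a : ℝ) = 0) → ∀ b ∈ Φ, ℓ b = 1 → (inner ℝ v b : ℝ) = 0 →
      ∀ g ∈ Φ, (inner ℝ v g : ℝ) = 0 := by
    intro v hv b hb hb1 hvb g hg
    rcases hL.lev g hg with h2 | h2 | h2
    · exact hv g hg h2
    · rw [hconst v hv g hg b hb h2 hb1, hvb]
    · have h3 := hconst v hv (-g) (C.neg hg) b hb (by
        have : ℓ g = -1 := h2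
        rw [map_neg, this, neg_neg]) hb1
      rw [hvb, inner_neg_right] at h3
      linarith
  -- parity
  have hpar : ∀ b ∈ Φ, ℓ b = 1 → ∃ m : ℤ, (inner ℝ b (e 0) : ℝ) = m * ε := by
    intro b hb hb1
    obtain ⟨k, hk⟩ := C.rs.int (e 0) he0 b hb
    have hk' : (inner ℝ b (e 0) : ℝ) = k * ε / 2 := by
      have := inn C.rs he0 b
      rw [hk, hne0] at this
      exact this
    have hd : ∀ b' ∈ Φ, ℓ b' = 1 → ∃ m : ℤ, (inner ℝ b' (e 0) : ℝ) = k * ε / 2 + m * ε := by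
      intro b' hb' hb1'
      obtain ⟨m, hm⟩ := T.even_Z0 C (hL.congr hb' hb1' hb hb1) h0r
      refine ⟨m, ?_⟩
      rw [inner_sub_left, hk'] at hm
      linarith
    obtain ⟨m₁, hm₁⟩ := hd b₁ hb₁ l₁
    obtain ⟨m₂, hm₂⟩ := hd b₂ hb₂ l₂
    obtain ⟨m₃, hm₃⟩ := hd b₃ hb₃ l₃
    obtain ⟨m, hm⟩ := T.comp C hx hx3 h0r
    obtain ⟨n, hn⟩ := T.comp C hy hy3 h0r
    have h2 := congrArg (fun v : E => (inner ℝ v (e 0) : ℝ)) hsum
    simp only [inner_add_left] at h2
    rw [hm, hn, hm₁, hm₂, hm₃] at h2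
    have h3 : ((2 * (m + n) : ℤ) : ℝ) = ((3 * k + 2 * (m₁ + m₂ + m₃) : ℤ) : ℝ) := by
      push_cast
      have h4 : (2 * ((m : ℝ) + n) - (3 * k + 2 * (m₁ + m₂ + m₃))) * ε = 0 := by linear_combination 2 * h2
      rcases mul_eq_zero.1 h4 with h5 | h5
      · linarith
      · exact absurd h5 hε.ne'
    have h4 : 2 * (m + n) = 3 * k + 2 * (m₁ + m₂ + m₃) := by exact_mod_cast h3
    refine ⟨k / 2, ?_⟩
    have h5 : k = 2 * (k / 2) := by omega
    rw [hk']
    have h6 : (k : ℝ) = 2 * ((k / 2 : ℤ) : ℝ) := by exact_mod_cast h5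
    rw [h6]
    ring
  -- a root of level one with pairing two
  obtain ⟨b, hb, hb1, hbe⟩ : ∃ b ∈ Φ, ℓ b = 1 ∧ (inner ℝ b (e 0) : ℝ) = ε := by
    obtain ⟨g, hg, hg1, hge⟩ := hL.not_orth he0 hle0
    obtain ⟨m, hm⟩ := hpar g hg hg1
    have h2 : co (e 0) g = 2 * m := T.co_e C h0r hm
    have h3 : m ≠ 0 := by
      intro h4
      apply hge
      rw [real_inner_comm, hm, h4]
      simp
    have h4 := C.le2 (e 0) he0 g hg
    have h5 := C.two_le he0 hg
    rw [h2] at h4 h5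
    have h6 : m ≤ 1 := by
      have : (m : ℝ) ≤ 1 := by linarith
      exact_mod_cast this
    have h7 : -1 ≤ m := by
      have : (-1 : ℝ) ≤ m := by linarith
      exact_mod_cast this
    have h8 : m = 1 ∨ m = -1 := by omega
    rcases h8 with rfl | rfl
    · exact ⟨g, hg, hg1, by rw [hm]; simp⟩
    · refine ⟨g - co (e 0) g • e 0, C.refl he0 hg, ?_, ?_⟩
      · have : ℓ g = 1 := hg1
        rw [map_sub, map_smul, hle0, smul_zero, sub_zero, this]
      · rw [inner_sub_left, inner_smul_left, hm, h2, hne0]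
        simp
        ring
  have hbb : (inner ℝ b b : ℝ) = 2 * ε := by
    rw [hL.norm_eq hb hb1 he0 hle0 (by rw [hbe]; exact hε.ne'), hbe, abs_of_pos hε]
  have hb' : b - e 0 ∈ Φ := C.rs.sub_mem hb he0 (by rw [hbe]; exact hε) (by
    intro h2
    rw [h2, hle0] at hb1
    norm_num at hb1)
  have hb1' : ℓ (b - e 0) = 1 := by rw [map_sub, hb1, hle0, sub_zero]
  have hbb' : (inner ℝ (b - e 0) (b - e 0) : ℝ) = ε := by
    rw [inner_sub_left, inner_sub_right, inner_sub_right, real_inner_comm b (e 0), hbb, hbe, hne0]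
    ring
  -- the constant
  have hτ0 : ∀ a ∈ Φ, ℓ a = 0 → (inner ℝ τ a : ℝ) = 0 := fun a ha h0 => T.tau_orth C ha h0
  have hk := hconst τ hτ0 b hb _ hb' hb1 hb1'
  have hττ : τ + τ ∈ AddSubgroup.closure (Φ : Set E) := by
    have h2 := C.sat.coset τ (T.tau_mem C).1 (-τ) (C.sat.neg τ (T.tau_mem C).1)
    rwa [sub_neg_eq_add] at h2
  have hkap : (inner ℝ τ (b - e 0) : ℝ) = ε := by
    obtain ⟨k, hk1⟩ := C.sat.int b hb τ (T.tau_mem C).1
    have h2 := inn C.rs hb τ
    rw [hk1, hbb] at h2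
    have h3 : co (b - e 0) τ = 2 * k := by
      unfold co
      rw [← hk, h2, hbb']
      field_simp
    have h4 := C.nonneg hb (T.tau_mem C).1 (by rw [(T.tau_mem C).2, hb1]; norm_num)
    have h5 := C.le_lev (C.reflX hb' (T.tau_mem C).1)
    rw [map_sub, map_smul, (T.tau_mem C).2, hb1', smul_eq_mul, h3] at h5
    rw [hk1] at h4
    have h6 : 0 ≤ k := by exact_mod_cast h4
    have h7 : 2 * k ≤ 3 := by
      have : 2 * (k : ℝ) ≤ 3 := by linarith
      exact_mod_cast this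
    have h8 : k = 0 ∨ k = 1 := by omega
    rcases h8 with rfl | rfl
    · exfalso
      rw [Int.cast_zero, zero_mul, zero_div] at h2
      have h9 := eq_zero_of_orth (Φ := Φ) (horth τ hτ0 b hb hb1 h2) hττ
      have h10 := (T.tau_mem C).2
      rw [h9, map_zero] at h10
      norm_num at h10
    · rw [← hk, h2]
      push_cast
      ring
  -- `b - e 0` is orthogonal to the roots of level zero
  have hb'e : ∀ j < r, (inner ℝ (b - e 0) (e j) : ℝ) = 0 := by
    intro j hj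
    by_cases hj0 : j = 0
    · rw [hj0, inner_sub_left, hbe, hne0, sub_self]
    · have h2 : (inner ℝ (b - e 0) (e j) : ℝ) = inner ℝ b (e j) := by
        rw [inner_sub_left, T.gram 0 h0r j hj, if_neg (Ne.symm hj0), sub_zero]
      by_contra h3
      have h4 := hL.norm_eq hb' hb1' (T.mem j hj) (T.lev_e C hj) h3
      have h5 := hL.norm_eq hb hb1 (T.mem j hj) (T.lev_e C hj) (by rw [← h2]; exact h3)
      rw [h2, hbb'] at h4
      rw [hbb] at h5
      linarith
  have hb'0 : ∀ a ∈ Φ, ℓ a = 0 → (inner ℝ (b - e 0) a : ℝ) = 0 := by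
    intro a ha h0
    rcases T.zero C ha h0 with h | ⟨x, hx, y, hy, hx3, hy3, rfl⟩
    · by_contra h3
      have h4 : (inner ℝ (b - e 0) a : ℝ) = inner ℝ b a := by
        rw [inner_sub_left, real_inner_comm a (e 0), h 0 h0r, sub_zero]
      have h5 := hL.norm_eq hb' hb1' ha h0 h3
      have h6 := hL.norm_eq hb hb1 ha h0 (by rw [← h4]; exact h3)
      rw [h4, hbb'] at h5
      rw [hbb] at h6
      linarith
    · have h2 : ∀ x ∈ X, ℓ x = 3 / 2 → (inner ℝ (b - e 0) x : ℝ) = inner ℝ (b - e 0) τ := by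
        intro x hx hx3
        rcases (T.top x).1 ⟨hx, hx3⟩ with h1 | ⟨j, hj, h1 | h1⟩
        · rw [h1]
        · rw [h1, inner_add_right, hb'e j hj, add_zero]
        · rw [h1, inner_sub_right, hb'e j hj, sub_zero]
      rw [inner_sub_right, h2 x hx hx3, h2 y hy hy3, sub_self]
  -- the end
  have h2 : ∀ a ∈ Φ, ℓ a = 0 → (inner ℝ (τ - (b - e 0)) a : ℝ) = 0 := by
    intro a ha h0
    rw [inner_sub_left, hτ0 a ha h0, hb'0 a ha h0, sub_self]
  have h3 := eq_zero_of_orth (Φ := Φ) (horth (τ - (b - e 0)) h2 _ hb' hb1' (by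
    rw [inner_sub_left, hkap, hbb', sub_self])) (by
    have h4 : τ - (b - e 0) + (τ - (b - e 0)) = τ + τ - ((b - e 0) + (b - e 0)) := by abel
    rw [h4]
    exact AddSubgroup.sub_mem _ hττ (AddSubgroup.add_mem _ (AddSubgroup.subset_closure hb') (AddSubgroup.subset_closure hb')))
  have h4 := congrArg ℓ h3
  rw [map_sub, hb1', (T.tau_mem C).2, map_zero] at h4
  norm_num at h4

end tb

end TR
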