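import Pool.Agent.Helper94.TR.One

/-!
Project TR (MP_b8862a_ag), block TR2, type `A`.
-/

set_option linter.unusedSectionVars false
set_option linter.unusedVariables false

namespace TR

open PF PG

variable {E : Type*} [NormedAddCommGroup E] [InnerProductSpace ℝ E] {Φ X : Finset E} {ℓ : E →ₗ[ℝ] ℝ}
  {p : ℕ} {ν : ℕ → E}

/-- The arithmetic. -/
theorem arith {p : ℕ} (hp : p.Prime) (h3 : 3 ≤ p) {V : ℤ → Prop}
    (hV : ∀ k, V k → k = 0 ∨ k = 1 ∨ k = -1 ∨ k = 2 ∨ k = -2 ∨ k = p - 1 ∨ k = -(p - 1) ∨ k = p - 2 ∨ k = -(p - 2) ∨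
      k = 2 * (p - 1) ∨ k = -(2 * (p - 1))) {a b c : ℤ} (ha : V a) (hb : V b) (hc : V c)
    (hab : (p : ℤ) ∣ a - b) (hac : (p : ℤ) ∣ a - c) (hsum : a + b + c = 2 * (p - 1)) : False := by
  have h1 : (p : ℤ) ∣ 3 * a + 2 := by
    have h2 : 3 * a + 2 = (a - b) + (a - c) + p * 2 := by linarith
    rw [h2]
    exact dvd_add (dvd_add hab hac) (dvd_mul_right _ _)
  have key : ∀ m : ℤ, (p : ℤ) ∣ m → m = 1 ∨ m = -1 ∨ m = 2 ∨ m = -2 ∨ m = 4 ∨ m = -4 ∨ m = 8 ∨ m = -8 → False := by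
    intro m hm hc
    have h4 : (p : ℤ) ∣ 2 ^ 3 := by
      have h5 : m ∣ 8 := by
        rcases hc with rfl | rfl | rfl | rfl | rfl | rfl | rfl | rfl <;> norm_num
      exact hm.trans (by simpa using h5)
    have h5 : p ∣ 2 ^ 3 := by exact_mod_cast h4
    have h6 := (Nat.prime_dvd_prime_iff_eq hp Nat.prime_two).1 (hp.dvd_of_dvd_pow h5)
    omega
  have h5 : p = 5 := by
    have h6 : (p : ℤ) ∣ 5 → p = 5 := by
      intro h
      have h7 : p ∣ 5 := by exact_mod_cast h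
      exact (Nat.prime_dvd_prime_iff_eq hp (by norm_num)).1 h7
    have hd : ∀ m n : ℤ, (p : ℤ) ∣ m → (p : ℤ) ∣ m - p * n := fun m n hm => dvd_sub hm (dvd_mul_right _ _)
    rcases hV a ha with h | h | h | h | h | h | h | h | h | h | h
    · exact (key _ h1 (by rw [h]; norm_num)).elim
    · exact h6 (by rw [h] at h1; simpa using h1)
    · exact (key _ h1 (by rw [h]; norm_num)).elim
    · exact (key _ h1 (by rw [h]; norm_num)).elim
    · exact (key _ h1 (by rw [h]; norm_num)).elim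
    · exact (key _ (hd _ 3 h1) (by rw [h]; right; left; ring)).elim
    · have := hd _ (-3) h1
      rw [h] at this
      exact h6 (by
        have e : 3 * (-((p : ℤ) - 1)) + 2 - p * (-3) = 5 := by ring
        rwa [e] at this)
    · exact (key _ (hd _ 3 h1) (by rw [h]; right; right; right; right; right; left; ring)).elim
    · exact (key _ (hd _ (-3) h1) (by rw [h]; right; right; right; right; right; right; left; ring)).elim
    · exact (key _ (hd _ 6 h1) (by rw [h]; right; right; right; right; right; left; ring)).elim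
    · exact (key _ (hd _ (-6) h1) (by rw [h]; right; right; right; right; right; right; left; ring)).elim
  subst h5
  have ha' := hV a ha
  have hb' := hV b hb
  have hc' := hV c hc
  push_cast at *
  omega

section

variable (C : Cf Φ X ℓ) (h1 : ∀ g ∈ Φ, ℓ g ≤ 1) {l : ℝ} (hl : 0 < l)
  (hA : ∀ i < p, ∀ j < p, i ≠ j → ν i - ν j ∈ Φ ∧ inner ℝ (ν i - ν j) (ν i - ν j) = l ∧
    ∀ k < p, inner ℝ (ν k) (ν i - ν j) = (l / 2) * ((if k = i then 1 else 0) - (if k = j then 1 else 0)))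
  (hlev : ∀ i < p, ℓ (ν i) = 3 / 2)

include hl hA

theorem inner_diff {i j u w : ℕ} (hi : i < p) (hj : j < p) (hu : u < p) (hw : w < p) (hij : i ≠ j) (hiu : i ≠ u)
    (hiw : i ≠ w) (hju : j ≠ u) (hjw : j ≠ w) (huw : u ≠ w) : (inner ℝ (ν i - ν j) (ν u - ν w) : ℝ) = 0 := by
  rw [inner_sub_left, (hA u hu w hw huw).2.2 i hi, (hA u hu w hw huw).2.2 j hj, if_neg hiu, if_neg hiw, if_neg hju,
    if_neg hjw]
  ring

theorem co_diff {i j : ℕ} (hi : i < p) (hj : j < p) (hij : i ≠ j) (b : E) :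
    co (ν i - ν j) b = 2 / l * inner ℝ b (ν i) - 2 / l * inner ℝ b (ν j) := by
  unfold co
  rw [(hA i hi j hj hij).2.1, inner_sub_right]
  field_simp

include C hlev

theorem lev_diff {i j : ℕ} (hi : i < p) (hj : j < p) : ℓ (ν i - ν j) = 0 := by
  rw [map_sub, hlev i hi, hlev j hj, sub_self]

include h1

/-- Three exchanges are impossible. -/
theorem exch3 {b : E} (hb : b ∈ Φ) (hb1 : ℓ b = 1) (hbl : (inner ℝ b b : ℝ) = l) {u₁ u₂ u₃ w₁ w₂ w₃ : ℕ}
    (hu₁ : u₁ < p) (hu₂ : u₂ < p) (hu₃ : u₃ < p) (hw₁ : w₁ < p) (hw₂ : w₂ < p) (hw₃ : w₃ < p)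
    (hu : u₁ ≠ u₂ ∧ u₁ ≠ u₃ ∧ u₂ ≠ u₃) (hw : w₁ ≠ w₂ ∧ w₁ ≠ w₃ ∧ w₂ ≠ w₃)
    (huw : ∀ u w, (u = u₁ ∨ u = u₂ ∨ u = u₃) → (w = w₁ ∨ w = w₂ ∨ w = w₃) → u ≠ w ∧ co (ν u - ν w) b = 1) : False := by
  have hL := C.toLev h1
  have e11 := huw u₁ w₁ (Or.inl rfl) (Or.inl rfl)
  have e22 := huw u₂ w₂ (Or.inr (Or.inl rfl)) (Or.inr (Or.inl rfl))
  have e33 := huw u₃ w₃ (Or.inr (Or.inr rfl)) (Or.inr (Or.inr rfl))
  have e12 := huw u₁ w₂ (Or.inl rfl) (Or.inr (Or.inl rfl))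
  have e13 := huw u₁ w₃ (Or.inl rfl) (Or.inr (Or.inr rfl))
  have e21 := huw u₂ w₁ (Or.inr (Or.inl rfl)) (Or.inl rfl)
  have e23 := huw u₂ w₃ (Or.inr (Or.inl rfl)) (Or.inr (Or.inr rfl))
  have e31 := huw u₃ w₁ (Or.inr (Or.inr rfl)) (Or.inl rfl)
  have e32 := huw u₃ w₂ (Or.inr (Or.inr rfl)) (Or.inr (Or.inl rfl))
  have m1 := (hA u₁ hu₁ w₁ hw₁ e11.1).1
  have m2 := (hA u₂ hu₂ w₂ hw₂ e22.1).1
  have m3 := (hA u₃ hu₃ w₃ hw₃ e33.1).1
  have o12 : (inner ℝ (ν u₁ - ν w₁) (ν u₂ - ν w₂) : ℝ) = 0 :=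
    inner_diff hl hA hu₁ hw₁ hu₂ hw₂ e11.1 hu.1 e12.1 (Ne.symm e21.1) hw.1 e22.1
  have o13 : (inner ℝ (ν u₁ - ν w₁) (ν u₃ - ν w₃) : ℝ) = 0 :=
    inner_diff hl hA hu₁ hw₁ hu₃ hw₃ e11.1 hu.2.1 e13.1 (Ne.symm e31.1) hw.2.1 e33.1
  have o23 : (inner ℝ (ν u₂ - ν w₂) (ν u₃ - ν w₃) : ℝ) = 0 :=
    inner_diff hl hA hu₂ hw₂ hu₃ hw₃ e22.1 hu.2.2 e23.1 (Ne.symm e32.1) hw.2.2 e33.1
  have c12 := (inn_eq_zero C.rs m2 _).1 o12
  have c13 := (inn_eq_zero C.rs m3 _).1 o13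
  have c23 := (inn_eq_zero C.rs m3 _).1 o23
  have r1 := C.refl m1 hb
  rw [e11.2, one_smul] at r1
  have r2 := C.refl m2 r1
  rw [co_sub, e22.2, c12, sub_zero, one_smul] at r2
  have r3 := C.refl m3 r2
  rw [co_sub, co_sub, e33.2, c13, c23, sub_zero, sub_zero, one_smul] at r3
  have l3 : ℓ (b - (ν u₁ - ν w₁) - (ν u₂ - ν w₂) - (ν u₃ - ν w₃)) = 1 := by
    rw [map_sub, map_sub, map_sub, lev_diff C hl hA hlev hu₁ hw₁, lev_diff C hl hA hlev hu₂ hw₂,
      lev_diff C hl hA hlev hu₃ hw₃, hb1]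
    norm_num
  have h2 := hL.nonneg hb r3 hb1 l3
  have i1 := inn C.rs m1 b
  have i2 := inn C.rs m2 b
  have i3 := inn C.rs m3 b
  rw [e11.2, (hA u₁ hu₁ w₁ hw₁ e11.1).2.1] at i1
  rw [e22.2, (hA u₂ hu₂ w₂ hw₂ e22.1).2.1] at i2
  rw [e33.2, (hA u₃ hu₃ w₃ hw₃ e33.1).2.1] at i3
  rw [inner_sub_right (𝕜 := ℝ) b (b - (ν u₁ - ν w₁) - (ν u₂ - ν w₂)), inner_sub_right (𝕜 := ℝ) b (b - (ν u₁ - ν w₁)),
    inner_sub_right (𝕜 := ℝ) b b, i1, i2, i3, hbl] at h2
  linarith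

/-- Two exchanges are impossible for a long root. -/
theorem exch2 {b : E} (hb : b ∈ Φ) (hb1 : ℓ b = 1) (hbl : (inner ℝ b b : ℝ) = 2 * l) {u₁ u₂ w₁ w₂ : ℕ}
    (hu₁ : u₁ < p) (hu₂ : u₂ < p) (hw₁ : w₁ < p) (hw₂ : w₂ < p) (hu : u₁ ≠ u₂) (hw : w₁ ≠ w₂)
    (huw : ∀ u w, (u = u₁ ∨ u = u₂) → (w = w₁ ∨ w = w₂) → u ≠ w ∧ co (ν u - ν w) b = 2) : False := by
  have hL := C.toLev h1
  have e11 := huw u₁ w₁ (Or.inl rfl) (Or.inl rfl)
  have e22 := huw u₂ w₂ (Or.inr rfl) (Or.inr rfl)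
  have e12 := huw u₁ w₂ (Or.inl rfl) (Or.inr rfl)
  have e21 := huw u₂ w₁ (Or.inr rfl) (Or.inl rfl)
  have m1 := (hA u₁ hu₁ w₁ hw₁ e11.1).1
  have m2 := (hA u₂ hu₂ w₂ hw₂ e22.1).1
  have o12 : (inner ℝ (ν u₁ - ν w₁) (ν u₂ - ν w₂) : ℝ) = 0 :=
    inner_diff hl hA hu₁ hw₁ hu₂ hw₂ e11.1 hu e12.1 (Ne.symm e21.1) hw e22.1
  have c12 := (inn_eq_zero C.rs m2 _).1 o12
  have r1 := C.refl m1 hb
  rw [e11.2] at r1
  have r2 := C.refl m2 r1
  rw [co_sub, co_smul, e22.2, c12, mul_zero, sub_zero] at r2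
  have l3 : ℓ (b - (2 : ℝ) • (ν u₁ - ν w₁) - (2 : ℝ) • (ν u₂ - ν w₂)) = 1 := by
    rw [map_sub, map_sub, map_smul, map_smul, lev_diff C hl hA hlev hu₁ hw₁, lev_diff C hl hA hlev hu₂ hw₂, hb1]
    simp
  have h2 := hL.nonneg hb r2 hb1 l3
  have i1 := inn C.rs m1 b
  have i2 := inn C.rs m2 b
  rw [e11.2, (hA u₁ hu₁ w₁ hw₁ e11.1).2.1] at i1
  rw [e22.2, (hA u₂ hu₂ w₂ hw₂ e22.1).2.1] at i2
  rw [inner_sub_right (𝕜 := ℝ) b (b - (2 : ℝ) • (ν u₁ - ν w₁)), inner_sub_right (𝕜 := ℝ) b b, inner_smul_right,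
    inner_smul_right, i1, i2, hbl] at h2
  linarith

/-- The possible differences. -/
theorem diff_cases {b : E} (hb : b ∈ Φ) (hb1 : ℓ b = 1) {i j : ℕ} (hi : i < p) (hj : j < p) (hij : i ≠ j) :
    co (ν i - ν j) b = 0 ∨ ((inner ℝ b b : ℝ) = l ∧ (co (ν i - ν j) b = 1 ∨ co (ν i - ν j) b = -1)) ∨
      ((inner ℝ b b : ℝ) = 2 * l ∧ (co (ν i - ν j) b = 2 ∨ co (ν i - ν j) b = -2)) := by
  have hL := C.toLev h1
  have m := (hA i hi j hj hij).1
  by_cases h2 : (inner ℝ b (ν i - ν j) : ℝ) = 0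
  · exact Or.inl ((inn_eq_zero C.rs m b).1 h2)
  · have h3 := hL.norm_eq hb hb1 m (lev_diff C hl hA hlev hi hj) h2
    have h4 := inn C.rs m b
    rw [(hA i hi j hj hij).2.1] at h4
    rw [h4] at h3
    rcases C.five m hb with h | h | h | h | h <;> rw [h] at h3 h4 ⊢
    · right; right
      refine ⟨?_, Or.inr rfl⟩
      rw [h3, abs_of_neg (by linarith)]
      ring
    · right; left
      refine ⟨?_, Or.inr rfl⟩
      rw [h3, abs_of_neg (by linarith)]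
      ring
    · exfalso
      apply h2
      rw [h4]
      ring
    · right; left
      refine ⟨?_, Or.inl rfl⟩
      rw [h3, abs_of_pos (by linarith)]
      ring
    · right; right
      refine ⟨?_, Or.inl rfl⟩
      rw [h3, abs_of_pos (by linarith)]
      ring

/-- Exchanges between two sets. -/
theorem excl {b : E} (hb : b ∈ Φ) (hb1 : ℓ b = 1) {c : ℝ} (hc : (c = 1 ∧ (inner ℝ b b : ℝ) = l) ∨
    (c = 2 ∧ (inner ℝ b b : ℝ) = 2 * l)) {U D : Finset ℕ} (hU : ∀ u ∈ U, u < p) (hD : ∀ w ∈ D, w < p)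
    (hUD : ∀ u ∈ U, ∀ w ∈ D, u ≠ w ∧ co (ν u - ν w) b = c) :
    (c = 1 ∧ (U.card ≤ 2 ∨ D.card ≤ 2)) ∨ (c = 2 ∧ (U.card ≤ 1 ∨ D.card ≤ 1)) := by
  rcases hc with ⟨hc, hbl⟩ | ⟨hc, hbl⟩
  · left
    refine ⟨hc, ?_⟩
    by_contra hcon
    push Not at hcon
    obtain ⟨u₁, hu₁, u₂, hu₂, u₃, hu₃, e1, e2, e3⟩ := Finset.two_lt_card.1 hcon.1
    obtain ⟨w₁, hw₁, w₂, hw₂, w₃, hw₃, f1, f2, f3⟩ := Finset.two_lt_card.1 hcon.2
    refine exch3 C h1 hl hA hlev hb hb1 hbl (hU _ hu₁) (hU _ hu₂) (hU _ hu₃) (hD _ hw₁) (hD _ hw₂) (hD _ hw₃)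
      ⟨e1, e2, e3⟩ ⟨f1, f2, f3⟩ ?_
    rw [hc] at hUD
    rintro u w (rfl | rfl | rfl) (rfl | rfl | rfl)
    · exact hUD _ hu₁ _ hw₁
    · exact hUD _ hu₁ _ hw₂
    · exact hUD _ hu₁ _ hw₃
    · exact hUD _ hu₂ _ hw₁
    · exact hUD _ hu₂ _ hw₂
    · exact hUD _ hu₂ _ hw₃
    · exact hUD _ hu₃ _ hw₁
    · exact hUD _ hu₃ _ hw₂
    · exact hUD _ hu₃ _ hw₃
  · right
    refine ⟨hc, ?_⟩
    by_contra hcon
    push Not at hcon
    obtain ⟨u₁, hu₁, u₂, hu₂, e1⟩ := Finset.one_lt_card.1 hcon.1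
    obtain ⟨w₁, hw₁, w₂, hw₂, f1⟩ := Finset.one_lt_card.1 hcon.2
    refine exch2 C h1 hl hA hlev hb hb1 hbl (hU _ hu₁) (hU _ hu₂) (hD _ hw₁) (hD _ hw₂) e1 f1 ?_
    rw [hc] at hUD
    rintro u w (rfl | rfl) (rfl | rfl)
    · exact hUD _ hu₁ _ hw₁
    · exact hUD _ hu₁ _ hw₂
    · exact hUD _ hu₂ _ hw₁
    · exact hUD _ hu₂ _ hw₂

/-- The values of the sum. -/
theorem K_cases {b : E} (hb : b ∈ Φ) (hb1 : ℓ b = 1) {i₀ : ℕ} (hi₀ : i₀ < p) :
    ∃ k : ℤ, ∑ j ∈ Finset.range p, (2 / l * inner ℝ b (ν i₀) - 2 / l * inner ℝ b (ν j)) = k ∧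
      (k = 0 ∨ k = 1 ∨ k = -1 ∨ k = 2 ∨ k = -2 ∨ k = p - 1 ∨ k = -(p - 1) ∨ k = p - 2 ∨ k = -(p - 2) ∨
      k = 2 * (p - 1) ∨ k = -(2 * (p - 1))) := by
  classical
  obtain ⟨n, hn⟩ : ∃ n : ℕ → ℝ, ∀ j, n j = 2 / l * inner ℝ b (ν j) := ⟨_, fun _ => rfl⟩
  simp only [← hn]
  have hco : ∀ i < p, ∀ j < p, i ≠ j → co (ν i - ν j) b = n i - n j := fun i hi j hj hij => by
    rw [hn, hn]
    exact co_diff hl hA hi hj hij b
  by_cases hconst : ∀ j < p, n j = n i₀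
  · refine ⟨0, ?_, Or.inl rfl⟩
    rw [Int.cast_zero]
    refine Finset.sum_eq_zero fun j hj => ?_
    rw [hconst j (Finset.mem_range.1 hj), sub_self]
  push Not at hconst
  obtain ⟨j₀, hj₀, hne⟩ := hconst
  have hij₀ : i₀ ≠ j₀ := by
    rintro rfl
    exact hne rfl
  -- the step
  obtain ⟨c, hc, hP⟩ : ∃ c : ℝ, ((c = 1 ∧ (inner ℝ b b : ℝ) = l) ∨ (c = 2 ∧ (inner ℝ b b : ℝ) = 2 * l)) ∧
      ∀ i < p, ∀ j < p, n i - n j = 0 ∨ n i - n j = c ∨ n i - n j = -c := by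
    have h2 := diff_cases C h1 hl hA hlev hb hb1 hi₀ hj₀ hij₀
    rw [hco i₀ hi₀ j₀ hj₀ hij₀] at h2
    rcases h2 with h2 | ⟨h2, -⟩ | ⟨h2, -⟩
    · exact absurd (by linarith) hne
    · refine ⟨1, Or.inl ⟨rfl, h2⟩, fun i hi j hj => ?_⟩
      by_cases hij : i = j
      · left; rw [hij, sub_self]
      · have h3 := diff_cases C h1 hl hA hlev hb hb1 hi hj hij
        rw [hco i hi j hj hij, h2] at h3
        rcases h3 with h3 | ⟨-, h3 | h3⟩ | ⟨h3, -⟩
        · exact Or.inl h3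
        · exact Or.inr (Or.inl h3)
        · exact Or.inr (Or.inr h3)
        · exfalso; linarith
    · refine ⟨2, Or.inr ⟨rfl, h2⟩, fun i hi j hj => ?_⟩
      by_cases hij : i = j
      · left; rw [hij, sub_self]
      · have h3 := diff_cases C h1 hl hA hlev hb hb1 hi hj hij
        rw [hco i hi j hj hij, h2] at h3
        rcases h3 with h3 | ⟨h3, -⟩ | ⟨-, h3 | h3⟩
        · exact Or.inl h3
        · exfalso; linarith
        · exact Or.inr (Or.inl h3)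
        · exact Or.inr (Or.inr h3)
  have hcpos : 0 < c := by rcases hc with ⟨h, -⟩ | ⟨h, -⟩ <;> rw [h] <;> norm_num
  -- the sets
  have key : ∀ (s : ℝ), (s = 1 ∨ s = -1) → (∀ j < p, n j = n i₀ ∨ n i₀ - n j = s * c) →
      ∃ D : Finset ℕ, D.card ≤ p - 1 ∧ ∑ j ∈ Finset.range p, (n i₀ - n j) = s * (c * D.card) ∧
        ((c = 1 ∧ (p - D.card ≤ 2 ∨ D.card ≤ 2)) ∨ (c = 2 ∧ (p - D.card ≤ 1 ∨ D.card ≤ 1))) := by
    intro s hs hall
    have hs0 : s ≠ 0 := by rcases hs with rfl | rfl <;> norm_num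
    have hsc : s * c ≠ 0 := mul_ne_zero hs0 hcpos.ne'
    obtain ⟨D, hD⟩ : ∃ D : Finset ℕ, D = (Finset.range p).filter fun j => n i₀ - n j = s * c := ⟨_, rfl⟩
    obtain ⟨U, hU⟩ : ∃ U : Finset ℕ, U = (Finset.range p).filter fun j => ¬ n i₀ - n j = s * c := ⟨_, rfl⟩
    have hDm : ∀ j, j ∈ D ↔ j < p ∧ n i₀ - n j = s * c := fun j => by rw [hD, Finset.mem_filter, Finset.mem_range]
    have hUm : ∀ j, j ∈ U ↔ j < p ∧ n j = n i₀ := fun j => by
      rw [hU, Finset.mem_filter, Finset.mem_range]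
      constructor
      · rintro ⟨hj, h⟩
        rcases hall j hj with h3 | h3
        · exact ⟨hj, h3⟩
        · exact absurd h3 h
      · rintro ⟨hj, h⟩
        refine ⟨hj, ?_⟩
        rw [h, sub_self]
        exact fun h3 => hsc h3.symm
    have hcard : D.card + U.card = p := by
      rw [hD, hU, Finset.card_filter_add_card_filter_not, Finset.card_range]
    have hi₀U : i₀ ∈ U := (hUm i₀).2 ⟨hi₀, rfl⟩
    have hUpos : 1 ≤ U.card := Finset.card_pos.2 ⟨i₀, hi₀U⟩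
    refine ⟨D, by omega, ?_, ?_⟩
    · have h3 : ∀ j ∈ Finset.range p, n i₀ - n j = if n i₀ - n j = s * c then s * c else 0 := by
        intro j hj
        rcases hall j (Finset.mem_range.1 hj) with h4 | h4
        · rw [h4, sub_self, if_neg (fun h5 => hsc h5.symm)]
        · rw [if_pos h4, h4]
      rw [Finset.sum_congr rfl h3, ← Finset.sum_filter, ← hD, Finset.sum_const, nsmul_eq_mul]
      ring
    · have h3 : U.card = p - D.card := by omega
      rw [← h3]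
      rcases hs with hs | hs
      · refine excl C h1 hl hA hlev hb hb1 hc (fun u hu => ((hUm u).1 hu).1) (fun w hw => ((hDm w).1 hw).1) ?_
        intro u hu w hw
        have hu' := (hUm u).1 hu
        have hw' := (hDm w).1 hw
        rw [hs, one_mul] at hw'
        have hne' : u ≠ w := by
          rintro rfl
          rw [hu'.2, sub_self] at hw'
          exact hcpos.ne hw'.2
        refine ⟨hne', ?_⟩
        rw [hco u hu'.1 w hw'.1 hne', hu'.2]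
        exact hw'.2
      · have h4 := excl C h1 hl hA hlev hb hb1 hc (fun w hw => ((hDm w).1 hw).1) (fun u hu => ((hUm u).1 hu).1) (by
          intro w hw u hu
          have hu' := (hUm u).1 hu
          have hw' := (hDm w).1 hw
          rw [hs] at hw'
          have hne' : w ≠ u := by
            rintro rfl
            rw [hu'.2, sub_self] at hw'
            linarith [hw'.2]
          refine ⟨hne', ?_⟩
          rw [hco w hw'.1 u hu'.1 hne', hu'.2]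
          linarith [hw'.2])
        rcases h4 with ⟨h4, h5 | h5⟩ | ⟨h4, h5 | h5⟩
        · exact Or.inl ⟨h4, Or.inr h5⟩
        · exact Or.inl ⟨h4, Or.inl h5⟩
        · exact Or.inr ⟨h4, Or.inr h5⟩
        · exact Or.inr ⟨h4, Or.inl h5⟩
  have h4 : (∀ j < p, n j = n i₀ ∨ n i₀ - n j = 1 * c) ∨ (∀ j < p, n j = n i₀ ∨ n i₀ - n j = -1 * c) := by
    by_contra hcon
    push Not at hcon
    obtain ⟨⟨j, hj, hj1, hj2⟩, k, hk, hk1, hk2⟩ := hcon
    have e1 : n i₀ - n j = -c := by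
      rcases hP i₀ hi₀ j hj with h | h | h
      · exact absurd (by linarith) hj1
      · exact absurd (by linarith) hj2
      · exact h
    have e2 : n i₀ - n k = c := by
      rcases hP i₀ hi₀ k hk with h | h | h
      · exact absurd (by linarith) hk1
      · exact h
      · exact absurd (by linarith) hk2
    rcases hP j hj k hk with h | h | h <;> linarith
  have hp : 1 ≤ p := by omega
  rcases h4 with h4 | h4
  · obtain ⟨D, hDp, hsum, hcase⟩ := key 1 (Or.inl rfl) h4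
    rcases hcase with ⟨hc1, h5⟩ | ⟨hc2, h5⟩
    · refine ⟨D.card, by rw [hsum, hc1]; push_cast; ring, ?_⟩
      have : D.card = 0 ∨ D.card = 1 ∨ D.card = 2 ∨ (D.card : ℤ) = p - 1 ∨ (D.card : ℤ) = p - 2 := by omega
      rcases this with h | h | h | h | h
      · left; exact_mod_cast h
      · right; left; exact_mod_cast h
      · right; right; right; left; exact_mod_cast h
      · right; right; right; right; right; left; exact h
      · right; right; right; right; right; right; right; left; exact h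
    · refine ⟨2 * D.card, by rw [hsum, hc2]; push_cast; ring, ?_⟩
      have : D.card = 0 ∨ D.card = 1 ∨ (D.card : ℤ) = p - 1 := by omega
      rcases this with h | h | h
      · left; rw [h]; norm_num
      · right; right; right; left; rw [h]; norm_num
      · right; right; right; right; right; right; right; right; right; left; rw [h]
  · obtain ⟨D, hDp, hsum, hcase⟩ := key (-1) (Or.inr rfl) h4
    rcases hcase with ⟨hc1, h5⟩ | ⟨hc2, h5⟩
    · refine ⟨-D.card, by rw [hsum, hc1]; push_cast; ring, ?_⟩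
      have : D.card = 0 ∨ D.card = 1 ∨ D.card = 2 ∨ (D.card : ℤ) = p - 1 ∨ (D.card : ℤ) = p - 2 := by omega
      rcases this with h | h | h | h | h
      · left; rw [h]; norm_num
      · right; right; left; rw [h]; norm_num
      · right; right; right; right; left; rw [h]; norm_num
      · right; right; right; right; right; right; left; rw [h]
      · right; right; right; right; right; right; right; right; left; rw [h]
    · refine ⟨-(2 * D.card), by rw [hsum, hc2]; push_cast; ring, ?_⟩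
      have : D.card = 0 ∨ D.card = 1 ∨ (D.card : ℤ) = p - 1 := by omega
      rcases this with h | h | h
      · left; rw [h]; norm_num
      · right; right; right; right; left; rw [h]; norm_num
      · right; right; right; right; right; right; right; right; right; right; rw [h]

omit h1 in
/-- The sum on the lattice of level zero is divisible by `p`. -/
theorem K_Z0 (htop : ∀ x, (x ∈ X ∧ ℓ x = 3 / 2) ↔ ∃ i < p, x = ν i) {i₀ : ℕ} (hi₀ : i₀ < p) {z : E}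
    (hz : z ∈ Z0 Φ ℓ.toAddMonoidHom) :
    ∃ k : ℤ, ∑ j ∈ Finset.range p, (2 / l * inner ℝ z (ν i₀) - 2 / l * inner ℝ z (ν j)) = p * k := by
  unfold Z0 at hz
  induction hz using AddSubgroup.closure_induction with
  | mem z hz =>
    obtain ⟨hz, hz0⟩ := hz
    have hz0' : ℓ z = 0 := hz0
    by_cases h : ∀ j < p, (inner ℝ z (ν j) : ℝ) = 0
    · refine ⟨0, ?_⟩
      rw [Int.cast_zero, mul_zero]
      refine Finset.sum_eq_zero fun j hj => ?_
      rw [h i₀ hi₀, h j (Finset.mem_range.1 hj)]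
      ring
    · push Not at h
      obtain ⟨j, hj, hne⟩ := h
      have hνj := (htop (ν j)).2 ⟨j, hj, rfl⟩
      obtain ⟨u, hu, w, hw, hzuw⟩ : ∃ u < p, ∃ w < p, z = ν u - ν w := by
        rcases lt_or_gt_of_ne hne with h2 | h2
        · have h3 := C.add_mem hz hνj.1 ((inn_neg C.rs hz _).1 (by rw [real_inner_comm]; exact h2))
          obtain ⟨u, hu, h4⟩ := (htop (ν j + z)).1 ⟨h3, by rw [map_add, hz0', hνj.2, add_zero]⟩
          exact ⟨u, hu, j, hj, by rw [← h4]; abel⟩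
        · have h3 := C.sub_mem hz hνj.1 ((inn_pos C.rs hz _).1 (by rw [real_inner_comm]; exact h2))
          obtain ⟨u, hu, h4⟩ := (htop (ν j - z)).1 ⟨h3, by rw [map_sub, hz0', hνj.2, sub_zero]⟩
          exact ⟨j, hj, u, hu, by rw [← h4]; abel⟩
      have huw : u ≠ w := by
        rintro rfl
        rw [sub_self] at hzuw
        exact C.rs.ne_zero z hz hzuw
      refine ⟨(if i₀ = u then 1 else 0) - (if i₀ = w then 1 else 0), ?_⟩
      have h5 : ∀ k < p, 2 / l * (inner ℝ z (ν k) : ℝ) = (if k = u then 1 else 0) - (if k = w then 1 else 0) := by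
        intro k hk
        rw [hzuw, real_inner_comm, (hA u hu w hw huw).2.2 k hk]
        field_simp
      rw [Finset.sum_congr rfl (fun j hj => by rw [h5 i₀ hi₀, h5 j (Finset.mem_range.1 hj)]), Finset.sum_sub_distrib,
        Finset.sum_const, Finset.card_range, nsmul_eq_mul, Finset.sum_sub_distrib]
      rw [Finset.sum_ite_eq', Finset.sum_ite_eq', if_pos (Finset.mem_range.2 hu), if_pos (Finset.mem_range.2 hw)]
      push_cast
      ring
  | zero => exact ⟨0, by simp⟩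
  | add z w _ _ h5 h6 =>
    obtain ⟨m, hm⟩ := h5
    obtain ⟨n, hn⟩ := h6
    refine ⟨m + n, ?_⟩
    push_cast
    rw [mul_add, ← hm, ← hn, ← Finset.sum_add_distrib]
    refine Finset.sum_congr rfl fun j _ => ?_
    rw [inner_add_left, inner_add_left]
    ring
  | neg z _ h5 =>
    obtain ⟨m, hm⟩ := h5
    refine ⟨-m, ?_⟩
    push_cast
    rw [mul_neg, ← hm, ← Finset.sum_neg_distrib]
    refine Finset.sum_congr rfl fun j _ => ?_
    rw [inner_neg_left, inner_neg_left]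
    ring

end

/-- **There is a root of level two.** -/
theorem Inp.exists_two (I : Inp Φ X ℓ p ν) : ∃ g ∈ Φ, ℓ g = 2 := by
  have C := I.cf
  by_contra hcon
  push Not at hcon
  have h1 : ∀ g ∈ Φ, ℓ g ≤ 1 := by
    intro g hg
    have h2 := I.lev_le_two g hg
    have h3 := hcon g hg
    rcases C.levels hg with h | h | h | h | h | h | h <;> rw [h] at h2 h3 ⊢ <;>
      first | (norm_num; done) | (exfalso; exact h3 rfl) | (exfalso; norm_num at h2)
  rcases I.cfg with hA | hB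
  · obtain ⟨i₀, hi₀, b₁, hb₁, b₂, hb₂, b₃, hb₃, l₁, l₂, l₃, hsum⟩ := I.tri h1 hA
    obtain ⟨l, hl, hA'⟩ := hA
    have hlev : ∀ i < p, ℓ (ν i) = 3 / 2 := fun i hi => ((I.top _).2 ⟨i, hi, rfl⟩).2
    have hL := C.toLev h1
    obtain ⟨k₁, e₁, v₁⟩ := K_cases C h1 hl hA' hlev hb₁ l₁ hi₀
    obtain ⟨k₂, e₂, v₂⟩ := K_cases C h1 hl hA' hlev hb₂ l₂ hi₀
    obtain ⟨k₃, e₃, v₃⟩ := K_cases C h1 hl hA' hlev hb₃ l₃ hi₀
    obtain ⟨m₂, d₂⟩ := K_Z0 C hl hA' hlev I.top hi₀ (hL.congr hb₁ l₁ hb₂ l₂)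
    obtain ⟨m₃, d₃⟩ := K_Z0 C hl hA' hlev I.top hi₀ (hL.congr hb₁ l₁ hb₃ l₃)
    have hd : ∀ b b' : E, ∑ j ∈ Finset.range p, (2 / l * inner ℝ (b - b') (ν i₀) - 2 / l * inner ℝ (b - b') (ν j)) =
        ∑ j ∈ Finset.range p, (2 / l * inner ℝ b (ν i₀) - 2 / l * inner ℝ b (ν j)) -
        ∑ j ∈ Finset.range p, (2 / l * inner ℝ b' (ν i₀) - 2 / l * inner ℝ b' (ν j)) := by
      intro b b'
      rw [← Finset.sum_sub_distrib]
      refine Finset.sum_congr rfl fun j _ => ?_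
      rw [inner_sub_left, inner_sub_left]
      ring
    rw [hd, e₁, e₂] at d₂
    rw [hd, e₁, e₃] at d₃
    refine arith I.prime I.three (V := fun k => k = 0 ∨ k = 1 ∨ k = -1 ∨ k = 2 ∨ k = -2 ∨ k = (p : ℤ) - 1 ∨
      k = -((p : ℤ) - 1) ∨ k = (p : ℤ) - 2 ∨ k = -((p : ℤ) - 2) ∨ k = 2 * ((p : ℤ) - 1) ∨ k = -(2 * ((p : ℤ) - 1)))
      (fun k hk => hk) v₁ v₂ v₃ ⟨m₂, by exact_mod_cast d₂⟩ ⟨m₃, by exact_mod_cast d₃⟩ ?_
    have h5 : ∑ j ∈ Finset.range p, (2 / l * inner ℝ (b₁ + b₂ + b₃) (ν i₀) - 2 / l * inner ℝ (b₁ + b₂ + b₃) (ν j)) =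
        (k₁ : ℝ) + k₂ + k₃ := by
      rw [← e₁, ← e₂, ← e₃, ← Finset.sum_add_distrib, ← Finset.sum_add_distrib]
      refine Finset.sum_congr rfl fun j _ => ?_
      rw [inner_add_left, inner_add_left, inner_add_left, inner_add_left]
      ring
    rw [← hsum] at h5
    have h6 : ∀ j ∈ Finset.range p, 2 / l * (inner ℝ ((2 : ℝ) • ν i₀) (ν i₀) : ℝ) - 2 / l * inner ℝ ((2 : ℝ) • ν i₀) (ν j) =
        2 - (if j = i₀ then 2 else 0) := by
      intro j hj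
      by_cases hji : j = i₀
      · rw [hji, if_pos rfl]
        ring
      · rw [if_neg hji, ← mul_sub, ← inner_sub_right, inner_smul_left,
          (hA' i₀ hi₀ j (Finset.mem_range.1 hj) (Ne.symm hji)).2.2 i₀ hi₀, if_pos rfl, if_neg (Ne.symm hji)]
        simp
        field_simp
    rw [Finset.sum_congr rfl h6, Finset.sum_sub_distrib, Finset.sum_const, Finset.card_range, Finset.sum_ite_eq',
      if_pos (Finset.mem_range.2 hi₀), nsmul_eq_mul] at h5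
    have h7 : ((k₁ + k₂ + k₃ : ℤ) : ℝ) = ((2 * ((p : ℤ) - 1) : ℤ) : ℝ) := by
      push_cast
      linarith
    exact_mod_cast h7
  · obtain ⟨r, τ, e, ε, -, T⟩ := I.tb hB
    obtain ⟨i, hi, j, hj, b₁, hb₁, b₂, hb₂, b₃, hb₃, l₁, l₂, l₃, hsum⟩ := I.chain h1
    have hi' := (I.top _).2 ⟨i, hi, rfl⟩
    have hj' := (I.top _).2 ⟨j, hj, rfl⟩
    exact T.no_one C h1 hi'.1 hj'.1 hi'.2 hj'.2 hb₁ hb₂ hb₃ l₁ l₂ l₃ hsum

end TR
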