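import Pool.Agent.Helper94.TR.Basic

/-!
Project TR (MP_b8862a_ag), block TR1: there are no roots of level three.
-/

set_option linter.unusedSectionVars false
set_option linter.unusedVariables false

namespace TR

open PF PG

variable {E : Type*} [NormedAddCommGroup E] [InnerProductSpace ℝ E] {Φ X : Finset E} {ℓ : E →ₗ[ℝ] ℝ}

/-- The top weights in type `B`, `r = 1` included. -/
structure TB (Φ X : Finset E) (ℓ : E →ₗ[ℝ] ℝ) (r : ℕ) (τ : E) (e : ℕ → E) (ε : ℝ) : Prop where
  one_le : 1 ≤ r
  pos : 0 < ε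
  gram : ∀ i < r, ∀ j < r, inner ℝ (e i) (e j) = if i = j then ε else (0 : ℝ)
  tau : ∀ i < r, inner ℝ τ (e i) = (0 : ℝ)
  mem : ∀ i < r, e i ∈ Φ
  add : ∀ i < r, ∀ j < r, i ≠ j → e i + e j ∈ Φ ∧ e i - e j ∈ Φ
  top : ∀ x, (x ∈ X ∧ ℓ x = 3 / 2) ↔ x = τ ∨ ∃ i < r, x = τ + e i ∨ x = τ - e i

variable {p : ℕ} {ν : ℕ → E}

theorem Inp.tb (I : Inp Φ X ℓ p ν) (h : (5 ≤ p ∧ IsB Φ p ν) ∨ (p = 3 ∧ IsB1 Φ ν)) :
    ∃ (r : ℕ) (τ : E) (e : ℕ → E) (ε : ℝ), p = 2 * r + 1 ∧ TB Φ X ℓ r τ e ε := by
  rcases h with ⟨h5, r, τ, e, ε, hr, hp, hε, h1, h2, h3, h4, h6, h7, h8⟩ | ⟨h3, τ, e, ε, hε, h1, h2, h4, h5, h6, h7, h8⟩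
  · refine ⟨r, τ, e, ε, hp, by omega, hε, h1, h2, fun i hi => (h3 i hi).1, fun i hi j hj hij =>
      ⟨(h4 i hi j hj hij).1, (h4 i hi j hj hij).2.1⟩, ?_⟩
    intro x
    rw [I.top]
    constructor
    · rintro ⟨i, hi, rfl⟩
      rcases lt_trichotomy i r with h | h | h
      · exact Or.inr ⟨i, h, Or.inl (h6 i h)⟩
      · left; rw [h, h7]
      · refine Or.inr ⟨2 * r - i, by omega, Or.inr ?_⟩
        have h9 := h8 (2 * r - i) (by omega)
        have h10 : 2 * r - (2 * r - i) = i := by omega
        rw [h10] at h9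
        exact h9
    · rintro (rfl | ⟨i, hi, rfl | rfl⟩)
      · exact ⟨r, by omega, h7.symm⟩
      · exact ⟨i, by omega, (h6 i hi).symm⟩
      · exact ⟨2 * r - i, by omega, (h8 i hi).symm⟩
  · subst h3
    refine ⟨1, τ, fun _ => e, ε, by norm_num, le_refl 1, hε, ?_, fun i _ => h2, fun i _ => h4, ?_, ?_⟩
    · intro i hi j hj
      have : i = j := by omega
      rw [if_pos this, h1]
    · intro i hi j hj hij
      omega
    · intro x
      rw [I.top]
      constructor
      · rintro ⟨i, hi, rfl⟩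
        have : i = 0 ∨ i = 1 ∨ i = 2 := by omega
        rcases this with rfl | rfl | rfl
        · exact Or.inr ⟨0, by norm_num, Or.inl h6⟩
        · left; exact h7
        · exact Or.inr ⟨0, by norm_num, Or.inr h8⟩
      · rintro (rfl | ⟨i, hi, rfl | rfl⟩)
        · exact ⟨1, by norm_num, h7.symm⟩
        · exact ⟨0, by norm_num, h6.symm⟩
        · exact ⟨2, by norm_num, h8.symm⟩

section tb

variable {r : ℕ} {τ : E} {e : ℕ → E} {ε : ℝ} (T : TB Φ X ℓ r τ e ε) (C : Cf Φ X ℓ)
include T C

theorem TB.tau_mem : τ ∈ X ∧ ℓ τ = 3 / 2 := (T.top τ).2 (Or.inl rfl)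

theorem TB.add_mem {i : ℕ} (hi : i < r) : τ + e i ∈ X ∧ ℓ (τ + e i) = 3 / 2 := (T.top _).2 (Or.inr ⟨i, hi, Or.inl rfl⟩)

theorem TB.sub_mem {i : ℕ} (hi : i < r) : τ - e i ∈ X ∧ ℓ (τ - e i) = 3 / 2 := (T.top _).2 (Or.inr ⟨i, hi, Or.inr rfl⟩)

theorem TB.lev_e {i : ℕ} (hi : i < r) : ℓ (e i) = 0 := by
  have h1 := (T.add_mem C hi).2
  rw [map_add, (T.tau_mem C).2] at h1
  linarith

theorem TB.norm_e {i : ℕ} (hi : i < r) : (inner ℝ (e i) (e i) : ℝ) = ε := by
  rw [T.gram i hi i hi, if_pos rfl]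

/-- The only top weight of the length of `τ`. -/
theorem TB.eq_tau {x : E} (hx : x ∈ X) (h : ℓ x = 3 / 2) (hn : (inner ℝ x x : ℝ) = inner ℝ τ τ) : x = τ := by
  rcases (T.top x).1 ⟨hx, h⟩ with h1 | ⟨i, hi, h1 | h1⟩
  · exact h1
  · exfalso
    rw [h1, inner_add_left, inner_add_right, inner_add_right, real_inner_comm τ (e i), T.tau i hi,
      T.norm_e C hi] at hn
    have := T.pos
    linarith
  · exfalso
    rw [h1, inner_sub_left, inner_sub_right, inner_sub_right, real_inner_comm τ (e i), T.tau i hi,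
      T.norm_e C hi] at hn
    have := T.pos
    linarith

/-- A root with pairings `0`, `1` on the top weights is orthogonal to the `e i`. -/
theorem TB.orth {g : E} (hg : g ∈ Φ) (h : ∀ x ∈ X, ℓ x = 3 / 2 → co g x = 0 ∨ co g x = 1) {i : ℕ} (hi : i < r) :
    (inner ℝ (e i) g : ℝ) = 0 := by
  rw [inn_eq_zero C.rs hg]
  have h1 := h _ (T.add_mem C hi).1 (T.add_mem C hi).2
  have h2 := h _ (T.sub_mem C hi).1 (T.sub_mem C hi).2
  have h3 := h _ (T.tau_mem C).1 (T.tau_mem C).2
  rw [co_add] at h1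
  rw [co_sub] at h2
  rcases h1 with h1 | h1 <;> rcases h2 with h2 | h2 <;> rcases h3 with h3 | h3 <;> linarith

theorem TB.co_eq {g : E} (hg : g ∈ Φ) (h : ∀ i < r, (inner ℝ (e i) g : ℝ) = 0) {x : E} (hx : x ∈ X) (hx3 : ℓ x = 3 / 2) :
    co g x = co g τ := by
  rcases (T.top x).1 ⟨hx, hx3⟩ with h1 | ⟨i, hi, h1 | h1⟩
  · rw [h1]
  · rw [h1, co_add, (inn_eq_zero C.rs hg (e i)).1 (h i hi), add_zero]
  · rw [h1, co_sub, (inn_eq_zero C.rs hg (e i)).1 (h i hi), sub_zero]

/-- A root of level three is `2 τ`. -/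
theorem TB.three {g : E} (hg : g ∈ Φ) (h3 : ℓ g = 3) :
    (∀ i < r, (inner ℝ (e i) g : ℝ) = 0) ∧ g = (2 : ℝ) • τ ∧ ∀ x ∈ X, ℓ x = 3 / 2 → co g x = 1 := by
  have h01 : ∀ x ∈ X, ℓ x = 3 / 2 → co g x = 0 ∨ co g x = 1 := by
    intro x hx hx3
    have h1 := C.nonneg hg hx (by rw [hx3, h3]; norm_num)
    have h2 := C.le_one hg hx (by rw [hx3, h3]; norm_num)
    obtain ⟨k, hk⟩ := C.sat.int g hg x hx
    rw [hk] at h1 h2 ⊢
    have h4 : 0 ≤ k := by exact_mod_cast h1
    have h5 : k ≤ 1 := by exact_mod_cast h2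
    have : k = 0 ∨ k = 1 := by omega
    rcases this with rfl | rfl
    · left; norm_num
    · right; norm_num
  have ho : ∀ i < r, (inner ℝ (e i) g : ℝ) = 0 := fun i hi => T.orth C hg h01 hi
  obtain ⟨x, hx, hx1⟩ := C.act_pos hg
  have hx3 : ℓ x = 3 / 2 := by
    have h1 := C.le_lev (C.sub_mem hg hx (by linarith))
    rw [map_sub, h3] at h1
    have h2 := C.lev_le hx
    linarith
  have ht1 : co g τ = 1 := by
    rw [← T.co_eq C hg ho hx hx3]
    rcases h01 x hx hx3 with h | h
    · linarith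
    · exact h
  have h1 : ∀ x ∈ X, ℓ x = 3 / 2 → co g x = 1 := fun x hx hx3 => by rw [T.co_eq C hg ho hx hx3, ht1]
  have h2 := C.sat.neg _ (C.sub_mem hg (T.tau_mem C).1 (by rw [ht1]; norm_num))
  have h4 : ℓ (-(τ - g)) = 3 / 2 := by
    rw [map_neg, map_sub, h3, (T.tau_mem C).2]
    norm_num
  have h5 : (inner ℝ (-(τ - g)) (-(τ - g)) : ℝ) = inner ℝ τ τ := by
    rw [inner_neg_neg]
    have h6 := C.rs.inner_refl hg τ τ
    rw [ht1, one_smul] at h6
    exact h6
  have h6 := T.eq_tau C h2 h4 h5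
  refine ⟨ho, ?_, h1⟩
  have h7 : g = τ + -(τ - g) := by abel
  rw [h7, h6, two_smul]

/-- Type `B`: there is no root of level three. -/
theorem TB.no_three (one3 : ∀ g ∈ Φ, ∀ g' ∈ Φ, ℓ g = 3 → ℓ g' = 3 → g = g') {g : E} (hg : g ∈ Φ) (h3 : ℓ g = 3) :
    False := by
  obtain ⟨ho, hgt, hY⟩ := T.three C hg h3
  have hgp := C.pos hg
  -- roots which are not orthogonal to `g` are short
  have key1 : ∀ b ∈ Φ, 0 < co b g → b ≠ g → (inner ℝ b b : ℝ) = inner ℝ g g / 2 := by
    intro b hb hbg hne
    obtain ⟨k, hk⟩ := C.sat.int b hb τ (T.tau_mem C).1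
    have h4 : co b g = 2 * co b τ := by
      rw [hgt, co_smul]
    have h5 : co b g = 2 := by
      rw [hk] at h4
      rcases C.five hb hg with h | h | h | h | h
      · linarith
      · linarith
      · linarith
      · exfalso
        rw [h] at h4
        have h6 : (1 : ℤ) = 2 * k := by exact_mod_cast h4
        omega
      · exact h
    have h6 : (inner ℝ b g : ℝ) ≠ 0 := by
      have := (inn_pos C.rs hb g).2 hbg
      rw [real_inner_comm]
      exact this.ne'
    rcases C.ratio hb hg h6 with h7 | h7 | h7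
    · exact absurd (C.eq_of_two hb hg h5 h7.le).symm hne
    · linarith
    · have := C.pos hb
      exact absurd (C.eq_of_two hb hg h5 (by linarith)).symm hne
  have key : ∀ b ∈ Φ, (inner ℝ b g : ℝ) ≠ 0 → b ≠ g → b ≠ -g → (inner ℝ b b : ℝ) = inner ℝ g g / 2 := by
    intro b hb hbg h4 h5
    rcases lt_or_gt_of_ne hbg with h6 | h6
    · have h7 := key1 (-b) (C.neg hb) (by
        rw [PF.co_neg_left]
        have h9 : (inner ℝ g b : ℝ) < 0 := by rw [real_inner_comm]; exact h6
        have h8 := (inn_neg C.rs hb g).1 h9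
        linarith) (by
        intro h8
        apply h5
        rw [← h8, neg_neg])
      rwa [inner_neg_neg] at h7
    · exact key1 b hb ((inn_pos C.rs hb g).1 (by rw [real_inner_comm]; exact h6)) h4
  -- `g` is long
  obtain ⟨m, hm, hmax⟩ := C.exists_max
  have hgm : (inner ℝ g g : ℝ) = inner ℝ m m := by
    rcases C.two_len hm hmax hg with h | h
    · exact h
    · exfalso
      obtain ⟨d, hd, hdm, hgd⟩ := C.near_len hm hg
      have h4 := key d hd (by rw [real_inner_comm]; exact hgd) (by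
        intro h5
        rw [h5, h] at hdm
        linarith) (by
        intro h5
        rw [h5, inner_neg_neg, h] at hdm
        linarith)
      have h5 := C.pos hm
      linarith
  have hmax' : ∀ a ∈ Φ, (inner ℝ a a : ℝ) ≤ inner ℝ g g := by
    rw [hgm]
    exact hmax
  -- no long root of level two
  have no2 : ∀ z ∈ Φ, ℓ z = 2 → (inner ℝ z z : ℝ) = inner ℝ g g → False := by
    intro z hz hz2 hzn
    have h4 : (inner ℝ z g : ℝ) = 0 := by
      by_contra h5
      have h6 := key z hz h5 (by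
        intro h7
        rw [h7, h3] at hz2
        norm_num at hz2) (by
        intro h7
        rw [h7, map_neg, h3] at hz2
        norm_num at hz2)
      linarith
    have h5 : co g z = 0 := (inn_eq_zero C.rs hg z).1 h4
    obtain ⟨x, hx, hx1⟩ := C.act_pos hz
    have h6 := C.sub_mem hz hx (by linarith)
    have h7 : ℓ (x - z) = ℓ x - 2 := by rw [map_sub, hz2]
    rcases C.lev x hx with h8 | h8 | h8 | h8
    · have h9 := hY x hx h8
      have h10 : co g (x - z) = 1 := by rw [co_sub, h9, h5, sub_zero]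
      have h11 := C.le_lev (C.sub_mem hg h6 (by rw [h10]; norm_num))
      rw [map_sub, h7, h8, h3] at h11
      norm_num at h11
    · have h9 := C.sat.neg _ h6
      have h10 := hY _ h9 (by rw [map_neg, h7, h8]; norm_num)
      rw [PF.co_neg_right, co_sub, h5, sub_zero] at h10
      have h11 := C.lev_le (C.add_mem hg hx (by linarith))
      rw [map_add, h8, h3] at h11
      norm_num at h11
    · have h9 := C.le_lev h6
      rw [h7, h8] at h9
      norm_num at h9
    · have h9 := C.le_lev h6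
      rw [h7, h8] at h9
      norm_num at h9
  have no2' : ∀ z ∈ Φ, ℓ z = 2 ∨ ℓ z = -2 → (inner ℝ z z : ℝ) = inner ℝ g g → False := by
    intro z hz hz2 hzn
    rcases hz2 with h | h
    · exact no2 z hz h hzn
    · exact no2 (-z) (C.neg hz) (by rw [map_neg, h]; norm_num) (by rw [inner_neg_neg]; exact hzn)
  -- no two long roots are neighbours
  have nn : ∀ c ∈ Φ, ∀ d ∈ Φ, (inner ℝ c c : ℝ) = inner ℝ g g → (inner ℝ d d : ℝ) = inner ℝ g g →
      (inner ℝ c d : ℝ) ≠ 0 → c ≠ d → c ≠ -d → False := by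
    intro c hc d hd hcn hdn hcd h4 h5
    obtain ⟨d', hd', ⟨hdn', c', hc', hcn', hcd', h4', h5'⟩, h6⟩ := near C.rs
      (A := fun d => (inner ℝ d d : ℝ) = inner ℝ g g ∧ ∃ c ∈ Φ, (inner ℝ c c : ℝ) = inner ℝ g g ∧
        (inner ℝ c d : ℝ) ≠ 0 ∧ c ≠ d ∧ c ≠ -d) (by
        rintro d hd ⟨hdn, c, hc, hcn, hcd, h4, h5⟩ a ha
        refine ⟨by rw [C.rs.inner_refl ha]; exact hdn, c - co a c • a, C.refl ha hc, by
          rw [C.rs.inner_refl ha]; exact hcn, by rw [C.rs.inner_refl ha]; exact hcd, ?_, ?_⟩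
        · intro h6
          apply h4
          have h7 : c - d = co a (c - d) • a := by
            rw [co_sub, sub_smul]
            have h8 : c - d - (co a c • a - co a d • a) = 0 := by
              have h9 : c - d - (co a c • a - co a d • a) = (c - co a c • a) - (d - co a d • a) := by abel
              rw [h9, h6, sub_self]
            exact sub_eq_zero.1 h8
          have h8 := congrArg (co a) h7
          rw [co_smul, C.rs.co_self ha] at h8
          have h9 : co a (c - d) = 0 := by linarith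
          rw [h9, zero_smul] at h7
          exact sub_eq_zero.1 h7
        · intro h6
          apply h5
          have h7 : c + d = co a (c + d) • a := by
            rw [co_add, add_smul]
            have h8 : c + d - (co a c • a + co a d • a) = 0 := by
              have h9 : c + d - (co a c • a + co a d • a) = (c - co a c • a) + (d - co a d • a) := by abel
              rw [h9, h6, neg_add_cancel]
            exact sub_eq_zero.1 h8
          have h8 := congrArg (co a) h7
          rw [co_smul, C.rs.co_self ha] at h8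
          have h9 : co a (c + d) = 0 := by linarith
          rw [h9, zero_smul] at h7
          exact eq_neg_of_add_eq_zero_left h7) hd ⟨hdn, c, hc, hcn, hcd, h4, h5⟩ g hg
    by_cases e1 : d' = g
    · subst e1
      have h7 := key c' hc' hcd' h4' h5'
      linarith
    · by_cases e2 : d' = -g
      · rw [e2] at hcd' h4' h5'
        rw [neg_neg] at h5'
        have h7 := key c' hc' (by simpa using hcd') h5' h4'
        linarith
      · have h7 := key d' hd' (by rw [real_inner_comm]; exact h6) e1 e2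
        linarith
  -- no long root of level zero
  have no0 : ∀ n ∈ Φ, ℓ n = 0 → (inner ℝ n n : ℝ) = inner ℝ g g → False := by
    intro n hn hn0 hnn
    obtain ⟨b, hb, hb0, hnb⟩ := C.exists_lev hn hn0
    have hbn : (inner ℝ b b : ℝ) = inner ℝ g g / 2 := by
      rcases C.two_len hg hmax' hb with h | h
      · exfalso
        refine nn n hn b hb hnn h hnb ?_ ?_
        · intro h4
          rw [← h4] at hb0
          exact hb0 hn0
        · intro h4
          rw [h4, map_neg] at hn0
          apply hb0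
          linarith
      · exact h
    have h4 := co_mul_co (C.rs.ne_zero b hb) (C.rs.ne_zero n hn)
    rw [hbn, hnn] at h4
    have h5 : co b n = 2 * co n b := by
      have h6 : (co b n - 2 * co n b) * inner ℝ g g = 0 := by linear_combination 2 * h4
      rcases mul_eq_zero.1 h6 with h7 | h7
      · linarith
      · exact absurd h7 hgp.ne'
    have h6 : co n b ≠ 0 := by
      intro h7
      apply hnb
      rw [real_inner_comm]
      exact (inn_eq_zero C.rs hn b).2 h7
    have h7 : co b n = 2 ∨ co b n = -2 := by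
      rcases C.five hn hb with h | h | h | h | h
      · rw [h] at h5
        have := C.two_le hb hn
        linarith
      · right; rw [h5, h]; norm_num
      · exact absurd h h6
      · left; rw [h5, h]; norm_num
      · rw [h] at h5
        have := C.le2 b hb n hn
        linarith
    have h8 := C.refl hb hn
    have h9 : (inner ℝ (n - co b n • b) (n - co b n • b) : ℝ) = inner ℝ g g := by
      rw [C.rs.inner_refl hb, hnn]
    have h10 : ℓ (n - co b n • b) = -(co b n * ℓ b) := by
      rw [map_sub, map_smul, hn0, smul_eq_mul]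
      ring
    have h11 := C.levels h8
    rw [h10] at h11
    apply no2' _ h8 _ h9
    rw [h10]
    rcases h7 with h7 | h7 <;> rw [h7] at h11 ⊢
    · rcases C.levels hb with h12 | h12 | h12 | h12 | h12 | h12 | h12 <;> rw [h12] at h11 hb0 ⊢ <;> (try norm_num at h11) <;> (try norm_num at hb0) <;> norm_num
    · rcases C.levels hb with h12 | h12 | h12 | h12 | h12 | h12 | h12 <;> rw [h12] at h11 hb0 ⊢ <;> (try norm_num at h11) <;> (try norm_num at hb0) <;> norm_num
  have h0r : 0 < r := T.one_le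
  by_cases hr : 2 ≤ r
  · have h4 := (T.add 0 (by omega) 1 (by omega) (by norm_num)).1
    have h5 : ℓ (e 0 + e 1) = 0 := by rw [map_add, T.lev_e C (by omega), T.lev_e C (by omega), add_zero]
    have h6 : (inner ℝ (e 0 + e 1) (e 0 + e 1) : ℝ) = 2 * ε := by
      rw [inner_add_left, inner_add_right, inner_add_right, T.norm_e C (by omega), T.norm_e C (by omega),
        T.gram 0 (by omega) 1 (by omega), T.gram 1 (by omega) 0 (by omega), if_neg (by norm_num), if_neg (by norm_num)]
      ring
    have h7 := C.two_len hg hmax' (T.mem 0 (by omega))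
    rw [T.norm_e C (by omega)] at h7
    have h8 := C.two_len hg hmax' h4
    rw [h6] at h8
    have h9 := T.pos
    refine no0 _ h4 h5 ?_
    rw [h6]
    rcases h7 with h7 | h7 <;> rcases h8 with h8 | h8 <;> linarith
  · have h4 : (inner ℝ (e 0) (e 0) : ℝ) ≠ inner ℝ g g := fun h5 => no0 _ (T.mem 0 h0r) (T.lev_e C h0r) h5
    obtain ⟨n, hn, hnn, hen⟩ := C.near_len hg (T.mem 0 h0r)
    have hng : n ≠ g := by
      intro h5
      apply hen
      rw [h5]
      exact ho 0 h0r
    have hng' : n ≠ -g := by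
      intro h5
      apply hen
      rw [h5, inner_neg_right, ho 0 h0r, neg_zero]
    have horth : (inner ℝ n g : ℝ) = 0 := by
      by_contra h5
      have h6 := key n hn h5 hng hng'
      linarith
    -- the level of `n` is one or minus one
    have hcase : ∀ n ∈ Φ, ℓ n = 1 → (inner ℝ n g : ℝ) = 0 → (inner ℝ (e 0) n : ℝ) ≠ 0 → False := by
      intro n hn hn1 hng hen
      have h5 : co n τ = 0 := by
        rw [← inn_eq_zero C.rs hn]
        rw [hgt, inner_smul_right, real_inner_comm] at hng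
        simpa using hng
      rcases lt_or_gt_of_ne hen with h6 | h6
      · have h7 := (inn_neg C.rs hn (e 0)).1 h6
        have h8 := C.lev_le (C.add_mem hn (T.add_mem C h0r).1 (by rw [co_add, h5]; linarith))
        rw [map_add, (T.add_mem C h0r).2, hn1] at h8
        norm_num at h8
      · have h7 := (inn_pos C.rs hn (e 0)).1 h6
        have h8 := C.lev_le (C.add_mem hn (T.sub_mem C h0r).1 (by rw [co_sub, h5]; linarith))
        rw [map_add, (T.sub_mem C h0r).2, hn1] at h8
        norm_num at h8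
    rcases C.levels hn with h5 | h5 | h5 | h5 | h5 | h5 | h5
    · have h6 := one3 (-n) (C.neg hn) g hg (by rw [map_neg, h5]; norm_num) h3
      apply hng'
      rw [← h6, neg_neg]
    · exact no2' n hn (Or.inr h5) hnn
    · exact hcase (-n) (C.neg hn) (by rw [map_neg, h5]; norm_num) (by rw [inner_neg_left, horth, neg_zero])
        (by rw [inner_neg_right]; simpa using hen)
    · exact no0 n hn h5 hnn
    · exact hcase n hn h5 horth hen
    · exact no2' n hn (Or.inl h5) hnn
    · exact hng (one3 n hn g hg h5 h3)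

end tb

/-- A root of level three is the sum of two top weights. -/
theorem Inp.three_eq (I : Inp Φ X ℓ p ν) {g : E} (hg : g ∈ Φ) (h3 : ℓ g = 3) : ∃ i < p, ∃ j < p, g = ν i + ν j := by
  have C := I.cf
  obtain ⟨x, hx, hx1⟩ := C.act_pos hg
  have h0 := C.sub_mem hg hx (by linarith)
  have hx3 : ℓ x = 3 / 2 := by
    have h1 := C.le_lev h0
    rw [map_sub, h3] at h1
    have h2 := C.lev_le hx
    linarith
  obtain ⟨i, hi, rfl⟩ := (I.top x).1 ⟨hx, hx3⟩
  obtain ⟨j, hj, h4⟩ := (I.top (-(ν i - g))).1 ⟨C.sat.neg _ h0, by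
    rw [map_neg, map_sub, hx3, h3]
    norm_num⟩
  refine ⟨i, hi, j, hj, ?_⟩
  rw [← h4]
  abel

/-- **There are no roots of level three.** -/
theorem Inp.lev_le_two (I : Inp Φ X ℓ p ν) : ∀ g ∈ Φ, ℓ g ≤ 2 := by
  intro g hg
  by_contra hcon
  push Not at hcon
  have C := I.cf
  have h3 : ℓ g = 3 := by
    rcases C.levels hg with h | h | h | h | h | h | h <;> rw [h] at hcon ⊢ <;> norm_num at hcon
  rcases I.cfg with hA | hB
  · obtain ⟨i, hi, j, hj, hgij⟩ := I.three_eq hg h3
    obtain ⟨m, hm, hmi, hmj⟩ : ∃ m < p, m ≠ i ∧ m ≠ j := by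
      by_contra hc
      push Not at hc
      have h4 := I.three
      have h5 : ∀ m < p, m = i ∨ m = j := fun m hm => by
        by_cases h6 : m = i
        · exact Or.inl h6
        · exact Or.inr (hc m hm h6)
      have e0 := h5 0 (by omega)
      have e1 := h5 1 (by omega)
      have e2 := h5 2 (by omega)
      omega
    obtain ⟨l, hl, hA'⟩ := hA
    obtain ⟨ha, hal, hak⟩ := hA' i hi m hm (Ne.symm hmi)
    have h4 : (inner ℝ g (ν i - ν m) : ℝ) ≠ 0 := by
      rw [hgij, inner_add_left, hak i hi, hak j hj]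
      rw [if_pos rfl, if_neg (Ne.symm hmi), if_neg (Ne.symm hmj)]
      split_ifs <;> norm_num <;> exact hl.ne'
    have h5 : ℓ (ν i - ν m) = 0 := by
      rw [map_sub, ((I.top _).2 ⟨i, hi, rfl⟩).2, ((I.top _).2 ⟨m, hm, rfl⟩).2, sub_self]
    have h6 := C.refl ha hg
    have h7 := I.one3 _ h6 g hg (by rw [map_sub, map_smul, h5, smul_zero, sub_zero, h3]) h3
    have h8 : co (ν i - ν m) g • (ν i - ν m) = 0 := by
      have h9 : g - (g - co (ν i - ν m) g • (ν i - ν m)) = 0 := by rw [h7, sub_self]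
      simpa using h9
    rcases smul_eq_zero.1 h8 with h9 | h9
    · exact h4 ((inn_eq_zero C.rs ha g).2 h9)
    · exact C.rs.ne_zero _ ha h9
  · obtain ⟨r, τ, e, ε, -, T⟩ := I.tb hB
    exact T.no_three C I.one3 hg h3

end TR
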