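import Pool.Agent.Helper94.PG.Config3

/-!
Project TR (MP_b8862a_ag), block TR0: the weights of the top level, pairings at most three.
-/

set_option linter.unusedSectionVars false
set_option linter.unusedVariables false

namespace PG

open PF

variable {E : Type*} [NormedAddCommGroup E] [InnerProductSpace ℝ E]

/-- A root system `Φ` and a set of weights `Y` with pairings at most `3`. -/
structure Top3 (Φ Y : Finset E) : Prop where
  ne_zero : ∀ a ∈ Φ, a ≠ 0
  int : ∀ a ∈ Φ, ∀ b ∈ Φ, ∃ k : ℤ, co a b = k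
  refl : ∀ a ∈ Φ, ∀ b ∈ Φ, b - co a b • a ∈ Φ
  red : ∀ a ∈ Φ, ∀ c : ℝ, c • a ∈ Φ → c = 1 ∨ c = -1
  le2 : ∀ a ∈ Φ, ∀ b ∈ Φ, co a b ≤ 2
  intY : ∀ a ∈ Φ, ∀ x ∈ Y, ∃ k : ℤ, co a x = k
  str : ∀ a ∈ Φ, ∀ x ∈ Y, ∀ j : ℕ, (j : ℝ) ≤ co a x → x - (j : ℝ) • a ∈ Y
  le3 : ∀ a ∈ Φ, ∀ x ∈ Y, co a x ≤ 3

variable {Φ Y : Finset E} (T : Top3 Φ Y)
include T

theorem Top3.neg {a : E} (ha : a ∈ Φ) : -a ∈ Φ := by
  have h1 := T.refl a ha a ha
  rw [co_self' (T.ne_zero a ha)] at h1
  have h2 : a - (2 : ℝ) • a = -a := by module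
  rwa [h2] at h1

theorem Top3.cases {g lam : E} (hg : g ∈ Φ) (hl : lam ∈ Y) (h : 1 ≤ co g lam) :
    co g lam = 1 ∨ co g lam = 2 ∨ co g lam = 3 := by
  obtain ⟨k, hk⟩ := T.intY g hg lam hl
  have h2 := T.le3 g hg lam hl
  rw [hk] at h h2 ⊢
  have h3 : 1 ≤ k := by exact_mod_cast h
  have h4 : k ≤ 3 := by exact_mod_cast h2
  have : k = 1 ∨ k = 2 ∨ k = 3 := by omega
  rcases this with rfl | rfl | rfl
  · left; norm_num
  · right; left; norm_num
  · right; right; norm_num

theorem Top3.rfY {a x : E} (ha : a ∈ Φ) (hx : x ∈ Y) (h : 0 ≤ co a x) : rf a x ∈ Y := by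
  obtain ⟨k, hk⟩ := T.intY a ha x hx
  have h1 : (0 : ℤ) ≤ k := by
    rw [hk] at h
    exact_mod_cast h
  obtain ⟨j, rfl⟩ := Int.eq_ofNat_of_zero_le h1
  have h2 := T.str a ha x hx j (by rw [hk]; simp)
  unfold rf
  rw [hk]
  simpa using h2

/-- the counting argument -/
theorem Top3.count {lam a : E} {s : ℕ} (hlam : lam ∈ Y) (ha : a ∈ Φ) (h1 : 1 ≤ co a lam) (hYs : Y.card ≤ s)
    (hs : (s : ℝ) ≤ co a lam + ((PP Φ lam).card : ℝ)) :
    Y.card = s ∧ ((s : ℝ) = co a lam + ((PP Φ lam).card : ℝ)) ∧ ∀ y ∈ Y, y = lam ∨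
      (∃ g ∈ Φ, 1 ≤ co g lam ∧ y = lam - g) ∨ (2 ≤ co a lam ∧ y = lam - (2 : ℝ) • a) ∨
      (3 ≤ co a lam ∧ y = lam - (3 : ℝ) • a) := by
  classical
  have hPP : ∀ g, g ∈ PP Φ lam ↔ g ∈ Φ ∧ 1 ≤ co g lam := by
    intro g
    simp [PP]
  have ha0 := T.ne_zero a ha
  obtain ⟨m, hm, hm1, hm3⟩ : ∃ m : ℕ, co a lam = m ∧ 1 ≤ m ∧ m ≤ 3 := by
    rcases T.cases ha hlam h1 with h | h | h
    · exact ⟨1, by rw [h]; norm_num, by norm_num, by norm_num⟩
    · exact ⟨2, by rw [h]; norm_num, by norm_num, by norm_num⟩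
    · exact ⟨3, by rw [h]; norm_num, by norm_num, by norm_num⟩
  obtain ⟨A, hA⟩ : ∃ A : Finset E, A = (PP Φ lam).image (fun g => lam - g) := ⟨_, rfl⟩
  obtain ⟨C, hC⟩ : ∃ C : Finset E, C = (Finset.Icc 2 m).image (fun j : ℕ => lam - (j : ℝ) • a) := ⟨_, rfl⟩
  have hmA : ∀ y, y ∈ A ↔ ∃ g ∈ Φ, 1 ≤ co g lam ∧ y = lam - g := by
    intro y
    rw [hA, Finset.mem_image]
    constructor
    · rintro ⟨g, hg, rfl⟩
      exact ⟨g, ((hPP g).1 hg).1, ((hPP g).1 hg).2, rfl⟩
    · rintro ⟨g, hg, hg1, rfl⟩
      exact ⟨g, (hPP g).2 ⟨hg, hg1⟩, rfl⟩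
  have hmC : ∀ y, y ∈ C ↔ ∃ j : ℕ, 2 ≤ j ∧ j ≤ m ∧ y = lam - (j : ℝ) • a := by
    intro y
    rw [hC, Finset.mem_image]
    constructor
    · rintro ⟨j, hj, rfl⟩
      rw [Finset.mem_Icc] at hj
      exact ⟨j, hj.1, hj.2, rfl⟩
    · rintro ⟨j, hj, hj', rfl⟩
      exact ⟨j, Finset.mem_Icc.2 ⟨hj, hj'⟩, rfl⟩
  have hAc : A.card = (PP Φ lam).card := by
    rw [hA, Finset.card_image_of_injective]
    intro g h hgh
    simpa using hgh
  have hCc : C.card = m - 1 := by
    rw [hC, Finset.card_image_of_injective, Nat.card_Icc]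
    · omega
    · intro i j hij
      have h2 : ((i : ℝ) - j) • a = 0 := by
        have h3 : (i : ℝ) • a = (j : ℝ) • a := by simpa using hij
        rw [sub_smul, h3, sub_self]
      rcases smul_eq_zero.1 h2 with h3 | h3
      · have : (i : ℝ) = j := by linarith
        exact_mod_cast this
      · exact absurd h3 ha0
  have hAY : A ⊆ Y := by
    intro y hy
    obtain ⟨g, hg, hg1, rfl⟩ := (hmA y).1 hy
    have := T.str g hg lam hlam 1 (by simpa using hg1)
    simpa using this
  have hCY : C ⊆ Y := by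
    intro y hy
    obtain ⟨j, hj, hj', rfl⟩ := (hmC y).1 hy
    exact T.str a ha lam hlam j (by rw [hm]; exact_mod_cast hj')
  have hlA : lam ∉ A := by
    intro h
    obtain ⟨g, hg, hg1, h2⟩ := (hmA _).1 h
    exact T.ne_zero g hg (by
      have : lam - (lam - g) = 0 := by rw [← h2, sub_self]
      simpa using this)
  have hlC : lam ∉ C := by
    intro h
    obtain ⟨j, hj, hj', h2⟩ := (hmC _).1 h
    have h3 : (j : ℝ) • a = 0 := by
      have : lam - (lam - (j : ℝ) • a) = 0 := by rw [← h2, sub_self]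
      simpa using this
    rcases smul_eq_zero.1 h3 with h4 | h4
    · have : j = 0 := by exact_mod_cast h4
      omega
    · exact ha0 h4
  have hAC : Disjoint A C := by
    rw [Finset.disjoint_left]
    intro y hy hy'
    obtain ⟨g, hg, hg1, rfl⟩ := (hmA y).1 hy
    obtain ⟨j, hj, hj', h2⟩ := (hmC _).1 hy'
    have h3 : g = (j : ℝ) • a := by simpa using h2
    rcases T.red a ha (j : ℝ) (h3 ▸ hg) with h4 | h4
    · have : j = 1 := by exact_mod_cast h4
      omega
    · have h5 : (0 : ℝ) ≤ j := Nat.cast_nonneg j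
      linarith
  have hU : insert lam (A ∪ C) ⊆ Y := by
    intro y hy
    rw [Finset.mem_insert, Finset.mem_union] at hy
    rcases hy with rfl | hy | hy
    · exact hlam
    · exact hAY hy
    · exact hCY hy
  have hUc : (insert lam (A ∪ C)).card = 1 + (PP Φ lam).card + (m - 1) := by
    rw [Finset.card_insert_of_notMem (by rw [Finset.mem_union]; tauto), Finset.card_union_of_disjoint hAC, hAc, hCc]
    omega
  have h5 := Finset.card_le_card hU
  have h6 : (s : ℝ) ≤ (m : ℝ) + ((PP Φ lam).card : ℝ) := by rw [← hm]; exact hs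
  have h7 : s ≤ m + (PP Φ lam).card := by exact_mod_cast h6
  have h8 : Y.card = s := by omega
  have h9 : s = m + (PP Φ lam).card := by omega
  refine ⟨h8, by rw [hm, h9]; push_cast; ring, ?_⟩
  have h10 : insert lam (A ∪ C) = Y := Finset.eq_of_subset_of_card_le hU (by omega)
  intro y hy
  rw [← h10, Finset.mem_insert, Finset.mem_union] at hy
  rcases hy with h | h | h
  · exact Or.inl h
  · exact Or.inr (Or.inl ((hmA y).1 h))
  · obtain ⟨j, hj, hj', h2⟩ := (hmC y).1 h
    have : j = 2 ∨ j = 3 := by omega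
    rcases this with rfl | rfl
    · refine Or.inr (Or.inr (Or.inl ⟨by rw [hm]; exact_mod_cast hj', by rw [h2]; norm_num⟩))
    · refine Or.inr (Or.inr (Or.inr ⟨by rw [hm]; exact_mod_cast hj', by rw [h2]; norm_num⟩))

/-- Pairings are at most two if the number of weights is odd. -/
theorem Top3.le_two {lam a : E} {s : ℕ} (hlam : lam ∈ Y) (ha : a ∈ Φ) (h1 : 1 ≤ co a lam) (hYs : Y.card ≤ s)
    (hs : (s : ℝ) ≤ co a lam + ((PP Φ lam).card : ℝ)) (hodd : Odd s) : ∀ g ∈ Φ, ∀ x ∈ Y, co g x ≤ 2 := by
  classical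
  have hPP : ∀ g, g ∈ PP Φ lam ↔ g ∈ Φ ∧ 1 ≤ co g lam := by
    intro g
    simp [PP]
  obtain ⟨hYc, hsc, hY⟩ := T.count hlam ha h1 hYs hs
  have ha0 := T.ne_zero a ha
  -- the pairing with `a` is not three
  have hm : co a lam ≤ 2 := by
    by_contra hcon
    push Not at hcon
    have h3 : co a lam = 3 := by
      rcases T.cases ha hlam h1 with h | h | h
      · rw [h] at hcon; norm_num at hcon
      · rw [h] at hcon; norm_num at hcon
      · exact h
    have hPa : PP Φ lam = {a} := by
      ext g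
      rw [hPP, Finset.mem_singleton]
      constructor
      · rintro ⟨hg, hg1⟩
        by_contra hne
        have hgY : lam - g ∈ Y := by
          have := T.str g hg lam hlam 1 (by simpa using hg1)
          simpa using this
        have hk2 := T.le2 a ha g hg
        have hco : co a (lam - g) = 3 - co a g := by rw [co_sub, h3]
        have hy := T.rfY ha hgY (by rw [hco]; linarith)
        have hyeq : rf a (lam - g) = lam - g - (3 - co a g) • a := by
          unfold rf
          rw [hco]
        rw [hyeq] at hy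
        have key : ∀ c : ℝ, co a g + 2 * (3 - co a g) = 2 * c → c ≤ 1 → False := by
          intro c hc hc1
          linarith
        rcases hY _ hy with h4 | ⟨g', hg', hg1', h4⟩ | ⟨-, h4⟩ | ⟨-, h4⟩
        · have h5 : g = -(3 - co a g) • a := by
            have h6 : lam - (lam - g - (3 - co a g) • a) = 0 := by rw [h4, sub_self]
            have h7 : g + (3 - co a g) • a = 0 := by
              rw [← h6]; module
            rw [neg_smul]
            exact eq_neg_of_add_eq_zero_left h7
          have h6 := congrArg (co a) h5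
          rw [co_smul, co_self' ha0] at h6
          linarith
        · have h5 : g' = g + (3 - co a g) • a := by
            have h6 : lam - (lam - g') = lam - (lam - g - (3 - co a g) • a) := by rw [h4]
            rw [sub_sub_cancel] at h6
            rw [h6]; module
          have h6 := congrArg (co a) h5
          rw [co_add, co_smul, co_self' ha0] at h6
          have h7 := T.le2 a ha g' hg'
          linarith
        · have h5 : g = (2 - (3 - co a g)) • a := by
            have h6 : lam - (lam - g - (3 - co a g) • a) = lam - (lam - (2 : ℝ) • a) := by rw [h4]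
            rw [sub_sub_cancel] at h6
            have h7 : g + (3 - co a g) • a = (2 : ℝ) • a := by
              rw [← h6]; module
            rw [sub_smul, ← h7]; module
          have h8 : (2 - (3 - co a g)) = 1 ∨ (2 - (3 - co a g)) = -1 := T.red a ha _ (h5 ▸ hg)
          rcases h8 with h8 | h8
          · rw [h8, one_smul] at h5
            exact hne h5
          · rw [h8, neg_smul, one_smul] at h5
            have h9 : co g lam = -3 := by rw [h5, co_neg_left, h3]
            linarith
        · have h5 : g = (3 - (3 - co a g)) • a := by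
            have h6 : lam - (lam - g - (3 - co a g) • a) = lam - (lam - (3 : ℝ) • a) := by rw [h4]
            rw [sub_sub_cancel] at h6
            have h7 : g + (3 - co a g) • a = (3 : ℝ) • a := by
              rw [← h6]; module
            rw [sub_smul, ← h7]; module
          have h8 : (3 - (3 - co a g)) = 1 ∨ (3 - (3 - co a g)) = -1 := T.red a ha _ (h5 ▸ hg)
          rcases h8 with h8 | h8
          · rw [h8, one_smul] at h5
            exact hne h5
          · rw [h8, neg_smul, one_smul] at h5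
            have h9 : co g lam = -3 := by rw [h5, co_neg_left, h3]
            linarith
      · rintro rfl
        exact ⟨ha, h1⟩
    rw [hPa, Finset.card_singleton, h3] at hsc
    have h4 : s = 4 := by
      have : (s : ℝ) = 4 := by rw [hsc]; norm_num
      exact_mod_cast this
    rw [h4] at hodd
    exact absurd hodd (by decide)
  have hY' : ∀ y ∈ Y, y = lam ∨ (∃ g ∈ Φ, 1 ≤ co g lam ∧ y = lam - g) ∨ (co a lam = 2 ∧ y = lam - (2 : ℝ) • a) := by
    intro y hy
    rcases hY y hy with h | h | ⟨h2, h⟩ | ⟨h3, h⟩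
    · exact Or.inl h
    · exact Or.inr (Or.inl h)
    · exact Or.inr (Or.inr ⟨le_antisymm hm h2, h⟩)
    · exfalso; linarith
  -- all pairings with `lam`
  have hl2 : ∀ g ∈ Φ, 2 ≤ co g lam → g = a ∧ co a lam = 2 := by
    intro g hg hg2
    have h2 := T.str g hg lam hlam 2 (by exact_mod_cast hg2)
    have h2' : lam - (2 : ℝ) • g ∈ Y := by exact_mod_cast h2
    rcases hY' _ h2' with h | ⟨g', hg', hg1', h⟩ | ⟨h3, h⟩
    · exfalso
      have h5 : (2 : ℝ) • g = 0 := by
        have : lam - (lam - (2 : ℝ) • g) = 0 := by rw [h, sub_self]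
        simpa using this
      rcases smul_eq_zero.1 h5 with h6 | h6
      · norm_num at h6
      · exact T.ne_zero g hg h6
    · exfalso
      have h5 : g' = (2 : ℝ) • g := by
        have h6 : lam - (lam - g') = lam - (lam - (2 : ℝ) • g) := by rw [h]
        rw [sub_sub_cancel, sub_sub_cancel] at h6
        exact h6
      rcases T.red g hg 2 (h5 ▸ hg') with h6 | h6 <;> norm_num at h6
    · have h5 : (2 : ℝ) • g = (2 : ℝ) • a := by
        have h6 : lam - (lam - (2 : ℝ) • g) = lam - (lam - (2 : ℝ) • a) := by rw [h]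
        rw [sub_sub_cancel, sub_sub_cancel] at h6
        exact h6
      have h6 : g = a := by
        have h7 := congrArg (fun v : E => (1 / 2 : ℝ) • v) h5
        simpa [smul_smul] using h7
      exact ⟨h6, h3⟩
  have hl : ∀ g ∈ Φ, co g lam ≤ 2 := by
    intro g hg
    by_contra hcon
    push Not at hcon
    obtain ⟨rfl, h3⟩ := hl2 g hg hcon.le
    linarith
  have hrefl : ∀ g ∈ Φ, ∀ h ∈ Φ, co g (rf h lam) ≤ 2 := by
    intro g hg h hh
    have h0 := T.ne_zero h hh
    have h2 : co g (rf h lam) = co (rf h g) lam := by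
      have h3 := co_rf h0 (rf h g) lam
      rw [rf_rf h0] at h3
      exact h3
    rw [h2]
    exact hl _ (T.refl h hh g hg)
  intro g hg x hx
  rcases hY' x hx with rfl | ⟨h, hh, hh1, rfl⟩ | ⟨h2, rfl⟩
  · exact hl g hg
  · rcases T.cases hh hlam hh1 with h3 | h3 | h3
    · have h4 : lam - h = rf h lam := by
        unfold rf
        rw [h3, one_smul]
      rw [h4]
      exact hrefl g hg h hh
    · obtain ⟨rfl, -⟩ := hl2 h hh (by rw [h3])
      -- `x = lam - h`, the middle weight
      by_contra hcon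
      push Not at hcon
      have h5 : co g (lam - h) = 3 := by
        rcases T.cases hg hx (by linarith) with h6 | h6 | h6
        · rw [h6] at hcon; norm_num at hcon
        · rw [h6] at hcon; norm_num at hcon
        · exact h6
      have h6 := T.rfY hg hx (by rw [h5]; norm_num)
      have hh0 := T.ne_zero h hh
      have hg0 := T.ne_zero g hg
      have hn1 : (inner ℝ (rf g (lam - h)) (rf g (lam - h)) : ℝ) = inner ℝ (lam - h) (lam - h) := inner_rf hg0 _ _
      have hpos : (0 : ℝ) < inner ℝ h h := real_inner_self_pos.2 hh0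
      have hlh : (inner ℝ lam h : ℝ) = inner ℝ h h := by
        have h7 := inner_of_co hh0 lam
        rw [h3] at h7
        linarith
      have hn2 : (inner ℝ (lam - h) (lam - h) : ℝ) = inner ℝ lam lam - inner ℝ h h := by
        rw [inner_sub_left, inner_sub_right, inner_sub_right, real_inner_comm lam h, hlh]
        ring
      rcases hY' _ h6 with h7 | ⟨k, hk, hk1, h7⟩ | ⟨h8, h7⟩
      · rw [h7, hn2] at hn1
        linarith
      · rcases T.cases hk hlam hk1 with h8 | h8 | h8
        · have h9 : lam - k = rf k lam := by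
            unfold rf
            rw [h8, one_smul]
          rw [h7, h9, inner_rf (T.ne_zero k hk), hn2] at hn1
          linarith
        · obtain ⟨rfl, -⟩ := hl2 k hk (by rw [h8])
          unfold rf at h7
          rw [h5] at h7
          have h9 : (3 : ℝ) • g = 0 := by
            have : lam - k - (lam - k - (3 : ℝ) • g) = 0 := by rw [h7, sub_self]
            simpa using this
          rcases smul_eq_zero.1 h9 with h10 | h10
          · norm_num at h10
          · exact hg0 h10
        · have := hl k hk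
          linarith
      · have h9 : lam - (2 : ℝ) • h = rf h lam := by
          unfold rf
          rw [h3]
        rw [h7, h9, inner_rf hh0, hn2] at hn1
        linarith
    · have := hl h hh
      linarith
  · have h4 : lam - (2 : ℝ) • a = rf a lam := by
      unfold rf
      rw [h2]
    rw [h4]
    exact hrefl g hg a ha

/-- **The configuration of the top level.** -/
theorem config_all3 {lam a : E} {s : ℕ} (hlam : lam ∈ Y) (ha : a ∈ Φ)
    (h1 : 1 ≤ co a lam) (hYs : Y.card ≤ s) (hs : (s : ℝ) ≤ co a lam + ((PP Φ lam).card : ℝ)) (hodd : Odd s)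
    (h3 : 3 ≤ s) : Y.card = s ∧ ∃ ν : ℕ → E, (∀ i < s, ν i ∈ Y) ∧ (∀ i < s, ∀ j < s, ν i = ν j → i = j) ∧
      (∀ y ∈ Y, ∃ i < s, ν i = y) ∧ (IsA Φ s ν ∨ (5 ≤ s ∧ IsB Φ s ν) ∨ (s = 3 ∧ IsB1 Φ ν)) := by
  have h2 := T.le_two hlam ha h1 hYs hs hodd
  have hT : Top Φ Y := ⟨T.ne_zero, T.int, T.refl, T.red, fun a ha b hb h => by
    have := T.le2 a ha b hb
    rw [h] at this
    norm_num at this, T.intY, T.str, h2⟩
  exact config_all hT hlam ha h1 hYs hs hodd h3

end PG
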