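import Pool.Agent.Helper94.TR.OneA

/-!
Project TR (MP_b8862a_ag), block TR3C: type `B` does not occur.
-/

set_option linter.unusedSectionVars false
set_option linter.unusedVariables false

namespace TR

open PF PG

variable {E : Type*} [NormedAddCommGroup E] [InnerProductSpace ℝ E] {Φ X : Finset E} {ℓ : E →ₗ[ℝ] ℝ}
  {p : ℕ} {ν : ℕ → E}

/-- **There are no configurations of type `B` with roots of level two.** -/
theorem Inp.not_B (I : Inp Φ X ℓ p ν) {b : E} (hb : b ∈ Φ) (hb2 : ℓ b = 2) :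
    ¬ ((5 ≤ p ∧ IsB Φ p ν) ∨ (p = 3 ∧ IsB1 Φ ν)) := by
  intro hB
  have h2 := I.lev_le_two
  have C := I.cf
  obtain ⟨r, τ, e, ε, hp, T⟩ := I.tb hB
  -- `b` is orthogonal to the `e i`
  have ho : ∀ i < r, (inner ℝ (e i) b : ℝ) = 0 := fun i hi =>
    T.orth C hb (fun x hx hx3 => C.zero_one hb hx hb2 (by rw [hx3]; norm_num)) hi
  obtain ⟨i, hi, j, hj, hij, a, ha, ha1, hab⟩ := I.pair h2 b hb hb2
  have htop : ∀ i < p, ν i ∈ X ∧ ℓ (ν i) = 3 / 2 := fun i hi => (I.top _).2 ⟨i, hi, rfl⟩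
  -- the pairing with `b`
  have hb01 : ∀ i < p, co b (ν i) = 0 ∨ co b (ν i) = 1 := fun i hi =>
    C.zero_one hb (htop i hi).1 hb2 (by rw [(htop i hi).2]; norm_num)
  have hba : 0 ≤ co b a := (inn_nonneg C.rs hb a).1 (by
    rw [real_inner_comm]
    exact C.root_nonneg hb ha h2 (by rw [hb2, ha1]; norm_num) (by rw [hb2, ha1]; norm_num))
  have hsum := congrArg (fun x => co b x) hab
  simp only [co_add, C.rs.co_self hb] at hsum
  have hbi : co b (ν i) = 1 ∧ co b a = 0 := by
    rcases hb01 i hi with h3 | h3 <;> rcases hb01 j hj with h4 | h4 <;> rw [h3, h4] at hsum <;>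
      first | (exfalso; linarith) | exact ⟨h3, by linarith⟩
  have hbt : co b τ = 1 := by
    rw [← T.co_eq C hb ho (htop i hi).1 (htop i hi).2, hbi.1]
  have hab0 : (inner ℝ a b : ℝ) = 0 := (inn_eq_zero C.rs hb a).2 hbi.2
  have hb0 := C.pos hb
  have ha0 := C.pos ha
  have htb : (inner ℝ τ b : ℝ) = inner ℝ b b / 2 := by rw [inn C.rs hb, hbt]; ring
  -- the form of the sum
  obtain ⟨w, hw, hwk⟩ : ∃ w : E, ν i + ν j = (2 : ℝ) • τ + w ∧
      (w = 0 ∨ ∃ k < r, (inner ℝ (e k) w : ℝ) ≠ 0) ∧ inner ℝ τ w = (0 : ℝ) ∧ inner ℝ w b = (0 : ℝ) := by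
    have hne : ν i ≠ ν j := fun h => hij (I.inj i hi j hj h)
    have hε := T.pos
    rcases (T.top _).1 (htop i hi) with h3 | ⟨k, hk, h3⟩ <;> rcases (T.top _).1 (htop j hj) with h4 | ⟨l, hl, h4⟩
    · exact absurd (h3.trans h4.symm) hne
    · rcases h4 with h4 | h4
      · refine ⟨e l, by rw [h3, h4]; module, Or.inr ⟨l, hl, ?_⟩, T.tau l hl, ho l hl⟩
        rw [T.norm_e C hl]; exact hε.ne'
      · refine ⟨-e l, by rw [h3, h4]; module, Or.inr ⟨l, hl, ?_⟩, ?_, ?_⟩
        · rw [inner_neg_right, T.norm_e C hl]; exact (neg_neg_of_pos hε).ne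
        · rw [inner_neg_right, T.tau l hl, neg_zero]
        · rw [inner_neg_left, ho l hl, neg_zero]
    · rcases h3 with h3 | h3
      · refine ⟨e k, by rw [h3, h4]; module, Or.inr ⟨k, hk, ?_⟩, T.tau k hk, ho k hk⟩
        rw [T.norm_e C hk]; exact hε.ne'
      · refine ⟨-e k, by rw [h3, h4]; module, Or.inr ⟨k, hk, ?_⟩, ?_, ?_⟩
        · rw [inner_neg_right, T.norm_e C hk]; exact (neg_neg_of_pos hε).ne
        · rw [inner_neg_right, T.tau k hk, neg_zero]
        · rw [inner_neg_left, ho k hk, neg_zero]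
    · by_cases hkl : k = l
      · subst hkl
        rcases h3 with h3 | h3 <;> rcases h4 with h4 | h4
        · exact absurd (h3.trans h4.symm) hne
        · exact ⟨0, by rw [h3, h4]; module, Or.inl rfl, inner_zero_right _, inner_zero_left _⟩
        · exact ⟨0, by rw [h3, h4]; module, Or.inl rfl, inner_zero_right _, inner_zero_left _⟩
        · exact absurd (h3.trans h4.symm) hne
      · obtain ⟨s, hs, h3'⟩ : ∃ s : ℝ, s ≠ 0 ∧ ν i = τ + s • e k := by
          rcases h3 with h3 | h3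
          · exact ⟨1, one_ne_zero, by rw [h3, one_smul]⟩
          · exact ⟨-1, by norm_num, by rw [h3]; module⟩
        obtain ⟨t, ht, h4'⟩ : ∃ t : ℝ, t ≠ 0 ∧ ν j = τ + t • e l := by
          rcases h4 with h4 | h4
          · exact ⟨1, one_ne_zero, by rw [h4, one_smul]⟩
          · exact ⟨-1, by norm_num, by rw [h4]; module⟩
        refine ⟨s • e k + t • e l, by rw [h3', h4']; module, Or.inr ⟨k, hk, ?_⟩, ?_, ?_⟩
        · rw [inner_add_right, inner_smul_right, inner_smul_right, T.norm_e C hk, T.gram k hk l hl, if_neg hkl,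
            mul_zero, add_zero]
          exact mul_ne_zero hs hε.ne'
        · rw [inner_add_right, inner_smul_right, inner_smul_right, T.tau k hk, T.tau l hl]
          ring
        · rw [inner_add_left, inner_smul_left, inner_smul_left, ho k hk, ho l hl]
          simp
  obtain ⟨hw0, hτw, hwb⟩ := hwk
  have haeq : a = (2 : ℝ) • τ + w - b := by rw [← hw, ← hab]; abel
  have hek : ∀ k < r, (inner ℝ (e k) a : ℝ) = inner ℝ (e k) w := by
    intro k hk
    rw [haeq, inner_sub_right, inner_add_right, inner_smul_right, real_inner_comm τ (e k), T.tau k hk, ho k hk]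
    ring
  have hτa : (inner ℝ τ a : ℝ) = 2 * inner ℝ τ τ - inner ℝ b b / 2 := by
    rw [haeq, inner_sub_right, inner_add_right, inner_smul_right, hτw, htb]
    ring
  have haa : (inner ℝ a a : ℝ) = 4 * inner ℝ τ τ + inner ℝ w w - inner ℝ b b := by
    have h3 : (inner ℝ a a : ℝ) = inner ℝ ((2 : ℝ) • τ + w - b) a := by rw [← haeq]
    rw [h3, inner_sub_left, inner_add_left, inner_smul_left, hτa, real_inner_comm a b, hab0, haeq, inner_sub_right,
      inner_add_right, inner_smul_right, hwb, real_inner_comm τ w, hτw]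
    simp
    ring
  have hta2 : (inner ℝ τ a : ℝ) = (inner ℝ a a - inner ℝ w w) / 2 := by rw [hτa, haa]; ring
  have htaN : (inner ℝ τ a : ℝ) = co a τ * inner ℝ a a / 2 := inn C.rs ha τ
  have hnn : ∀ x ∈ X, ℓ x = 3 / 2 → 0 ≤ (inner ℝ x a : ℝ) := fun x hx hx3 =>
    (inn_nonneg C.rs ha x).2 (C.nonneg ha hx (by rw [hx3, ha1]; norm_num))
  have ht0 := hnn τ (T.tau_mem C).1 (T.tau_mem C).2
  obtain ⟨N, hN⟩ := C.sat.int a ha τ (T.tau_mem C).1
  rw [hN] at htaN
  have hww : (0 : ℝ) ≤ inner ℝ w w := real_inner_self_nonneg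
  have hN0 : 0 ≤ N := by
    by_contra h3
    push Not at h3
    have h4 : (N : ℝ) ≤ -1 := by exact_mod_cast Int.le_sub_one_of_lt h3
    nlinarith
  have hN1 : N ≤ 1 := by
    by_contra h3
    push Not at h3
    have h4 : (2 : ℝ) ≤ N := by exact_mod_cast h3
    nlinarith
  have hNN : N = 0 ∨ N = 1 := by omega
  rcases hNN with h3 | h3
  · -- `τ` is orthogonal to `a`
    rw [h3] at htaN
    have h4 : (inner ℝ τ a : ℝ) = 0 := by rw [htaN]; simp
    rcases hw0 with h5 | ⟨k, hk, h5⟩
    · rw [h5, inner_zero_left] at hta2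
      linarith
    · have h6 := hnn _ (T.add_mem C hk).1 (T.add_mem C hk).2
      have h7 := hnn _ (T.sub_mem C hk).1 (T.sub_mem C hk).2
      rw [inner_add_left, h4, hek k hk] at h6
      rw [inner_sub_left, h4, hek k hk] at h7
      apply h5
      linarith
  · -- `a + b = 2 τ`
    rw [h3] at htaN hN
    have h4 : (inner ℝ w w : ℝ) = 0 := by
      rw [hta2] at htaN
      push_cast at htaN
      linarith
    have h5 : w = 0 := inner_self_eq_zero.1 h4
    obtain ⟨m, hm, hτm⟩ := (I.top τ).1 (T.tau_mem C)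
    refine I.line h2 m hm b hb a ha hb2 ha1 ?_ ?_ ?_
    · rw [hab, hw, h5, add_zero, hτm]
    · rw [← hτm, hbt]
    · rw [← hτm, co_sub, hN]
      have h6 : co a b = 0 := by
        rw [← inn_eq_zero C.rs ha, real_inner_comm]
        exact hab0
      rw [h6]
      norm_num

/-- With a root of level two, the configuration is of type `A`. -/
theorem Inp.isA (I : Inp Φ X ℓ p ν) : IsA Φ p ν := by
  obtain ⟨b, hb, hb2⟩ := I.exists_two
  rcases I.cfg with h | h
  · exact h
  · exact absurd h (I.not_B hb hb2)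

end TR
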